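import Pool.Agent.N998.ZS.Main

/-!
The main theorem for families of residues.
-/

set_option linter.unusedSectionVars false

namespace Pool.Agent.N998.ZS

open Finset

lemma exists_subset_map {G ι : Type*} [DecidableEq ι] (a : ι → G) (A : Multiset G) :
    ∀ (s : Finset ι), A ≤ s.val.map a → ∃ T ⊆ s, T.val.map a = A := by
  induction A using Multiset.induction_on with
  | empty => intro s _; exact ⟨∅, empty_subset _, rfl⟩
  | cons x A ih =>
    intro s hs
    have hx : x ∈ s.val.map a := Multiset.mem_of_le hs (Multiset.mem_cons_self _ _)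
    obtain ⟨i, hi, rfl⟩ := Multiset.mem_map.mp hx
    have hi' : i ∈ s := hi
    have h1 : s.val = i ::ₘ (s.erase i).val := by
      rw [erase_val]
      exact (Multiset.cons_erase hi).symm
    rw [h1, Multiset.map_cons] at hs
    obtain ⟨T, hT, hTA⟩ := ih (s.erase i) ((Multiset.cons_le_cons_iff _).mp hs)
    have hiT : i ∉ T := fun h => notMem_erase i s (hT h)
    refine ⟨insert i T, ?_, ?_⟩
    · intro j hj
      rcases mem_insert.mp hj with rfl | hj
      · exact hi'
      · exact mem_of_mem_erase (hT hj)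
    · rw [insert_val_of_notMem hiT, Multiset.map_cons, hTA]

lemma finpartition_of_parts {G ι : Type*} [AddCommGroup G] [DecidableEq ι] (a : ι → G) (k : ℕ) :
    ∀ s : Finset ι, Parts (s.val.map a) k →
    ∃ P : Finpartition s, #P.parts = k ∧ ∀ T ∈ P.parts, ∑ i ∈ T, a i = 0 := by
  induction k with
  | zero =>
    rintro s ⟨P, hc, hs, -⟩
    rw [Multiset.card_eq_zero] at hc
    rw [hc, Multiset.sum_zero] at hs
    have h1 : s = ∅ := by
      rw [← Finset.card_eq_zero, Finset.card_def]
      have := congrArg Multiset.card hs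
      rw [Multiset.card_map, Multiset.card_zero] at this
      exact this.symm
    subst h1
    exact ⟨Finpartition.empty _, rfl, fun T hT => absurd hT (notMem_empty T)⟩
  | succ k ih =>
    rintro s ⟨P, hc, hs, hz⟩
    obtain ⟨Z, hZ⟩ := Multiset.card_pos_iff_exists_mem.mp (by omega : 0 < Multiset.card P)
    obtain ⟨Q, rfl⟩ := Multiset.exists_cons_of_mem hZ
    rw [Multiset.sum_cons] at hs
    obtain ⟨T, hT, hTZ⟩ := exists_subset_map a Z s (by rw [← hs]; exact Multiset.le_add_right _ _)
    have h1 : ((s \ T).val.map a) = Q.sum := by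
      have h2 : s.val = T.val + (s \ T).val := by
        rw [sdiff_val, add_tsub_cancel_of_le (val_le_iff.mpr hT)]
      rw [h2, Multiset.map_add, hTZ] at hs
      exact (add_left_cancel hs).symm
    obtain ⟨R, hR1, hR2⟩ := ih (s \ T) ⟨Q, by
      rw [Multiset.card_cons] at hc; omega, h1.symm,
      fun Y hY => hz Y (Multiset.mem_cons_of_mem hY)⟩
    have hZ' := hz Z (Multiset.mem_cons_self _ _)
    have hT0 : T ≠ ⊥ := by
      rintro rfl
      apply hZ'.1
      rw [← hTZ]
      rfl
    have hdis : Disjoint (s \ T) T := sdiff_disjoint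
    have hsup : (s \ T) ⊔ T = s := by
      rw [sup_eq_union, sdiff_union_of_subset hT]
    refine ⟨R.extend hT0 hdis hsup, ?_, ?_⟩
    · rw [Finpartition.card_extend, hR1]
    · intro Y hY
      rw [Finpartition.extend_parts, mem_insert] at hY
      rcases hY with rfl | hY
      · have : ∑ i ∈ Y, a i = (Y.val.map a).sum := rfl
        rw [this, hTZ, hZ'.2]
      · exact hR2 Y hY

/-- The main theorem for families: partitions in `c + 1` nonempty blocks of sum zero. -/
theorem finpartition_iff {m : ℕ} [NeZero m] {ι : Type*} [Fintype ι] [DecidableEq ι]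
    (a : ι → ZMod m) (h0 : ∀ i, a i ≠ 0) (hs : ∑ i, a i = 0) (c : ℕ)
    (hlen : c * m + 3 ≤ 2 * Fintype.card ι) :
    (∃ P : Finpartition (univ : Finset ι), #P.parts = c + 1 ∧ ∀ T ∈ P.parts, ∑ i ∈ T, a i = 0) ↔
      ∀ t : (ZMod m)ˣ, (c + 1) * m ≤ ∑ i, ((t : ZMod m) * a i).val := by
  have hm := NeZero.pos m
  constructor
  · rintro ⟨P, hP, hz⟩ t
    have h1 : ∑ i, ((t : ZMod m) * a i).val =
        ∑ T ∈ P.parts, ∑ i ∈ T, ((t : ZMod m) * a i).val := by
      conv_lhs => rw [← P.biUnion_parts]
      exact sum_biUnion P.supIndep.pairwiseDisjoint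
    rw [h1, ← hP, ← smul_eq_mul]
    apply card_nsmul_le_sum
    intro T hT
    apply Nat.le_of_dvd
    · obtain ⟨i, hi⟩ := P.nonempty_of_mem_parts hT
      apply sum_pos'
      · intro j _; exact Nat.zero_le _
      · refine ⟨i, hi, ?_⟩
        rw [Nat.pos_iff_ne_zero]
        intro h
        rw [ZMod.val_eq_zero, Units.mul_right_eq_zero] at h
        exact h0 i h
    · rw [← ZMod.natCast_eq_zero_iff]
      push_cast
      have : ∀ i ∈ T, ((((t : ZMod m) * a i).val : ℕ) : ZMod m) = (t : ZMod m) * a i :=
        fun i _ => ZMod.natCast_zmod_val _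
      rw [sum_congr rfl this, ← mul_sum, hz T hT, mul_zero]
  · intro h
    apply finpartition_of_parts a (c + 1) univ
    refine (parts_iff c _ ?_ ?_ ?_).mpr ?_
    · intro h1
      obtain ⟨i, -, hi⟩ := Multiset.mem_map.mp h1
      exact h0 i hi
    · exact hs
    · rw [Multiset.card_map]
      exact hlen
    · intro t
      have := h t
      rw [Multiset.map_map]
      exact this

end Pool.Agent.N998.ZS
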