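import Pool.Agent.N998.ZS.SC

/-!
Decompositions of a multiset in nonempty multisets of sum zero.
-/

set_option linter.unusedSectionVars false

namespace Pool.Agent.N998.ZS

open Multiset

section general

variable {G : Type*} [AddCommGroup G]

/-- all members are nonempty and have sum zero -/
def AllZS (P : Multiset (Multiset G)) : Prop := ∀ Z ∈ P, Z ≠ 0 ∧ Z.sum = 0

/-- `W` is the union of `k` nonempty multisets of sum zero -/
def Parts (W : Multiset G) (k : ℕ) : Prop :=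
  ∃ P : Multiset (Multiset G), card P = k ∧ P.sum = W ∧ ∀ Z ∈ P, Z ≠ 0 ∧ Z.sum = 0

/-- a decomposition with the maximal number of parts -/
def Opt (P : Multiset (Multiset G)) : Prop := AllZS P ∧ ∀ k, card P < k → ¬ Parts P.sum k

lemma AllZS.mono {P Q : Multiset (Multiset G)} (h : AllZS P) (hQ : Q ≤ P) : AllZS Q :=
  fun Z hZ => h Z (Multiset.mem_of_le hQ hZ)

lemma AllZS.add {P Q : Multiset (Multiset G)} (h : AllZS P) (h' : AllZS Q) : AllZS (P + Q) := by
  intro Z hZ
  rcases Multiset.mem_add.mp hZ with h1 | h1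
  · exact h Z h1
  · exact h' Z h1

lemma AllZS.cons {Z : Multiset G} {P : Multiset (Multiset G)} (h : AllZS P) (h1 : Z ≠ 0)
    (h2 : Z.sum = 0) : AllZS (Z ::ₘ P) := by
  intro Y hY
  rcases Multiset.mem_cons.mp hY with rfl | h3
  · exact ⟨h1, h2⟩
  · exact h Y h3

lemma Opt.mono {P Q : Multiset (Multiset G)} (h : Opt P) (hQ : Q ≤ P) : Opt Q := by
  obtain ⟨R, rfl⟩ := Multiset.le_iff_exists_add.mp hQ
  refine ⟨h.1.mono hQ, ?_⟩
  rintro k hk ⟨Q', hc, hs, hz⟩
  apply h.2 (k + card R)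
  · rw [Multiset.card_add]; omega
  · refine ⟨Q' + R, by rw [Multiset.card_add, hc], by rw [Multiset.sum_add, hs, Multiset.sum_add], ?_⟩
    exact AllZS.add hz (h.1.mono (Multiset.le_add_left R Q))

/-- the parts of an optimal decomposition are minimal -/
lemma Opt.minimal {P : Multiset (Multiset G)} (h : Opt P) {Z : Multiset G} (hZ : Z ∈ P)
    {T : Multiset G} (hT : T ≤ Z) (h0 : T ≠ 0) (h1 : T ≠ Z) : T.sum ≠ 0 := by
  intro hs
  have h2 : Opt ({Z} : Multiset (Multiset G)) := h.mono (Multiset.singleton_le.mpr hZ)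
  obtain ⟨U, rfl⟩ := Multiset.le_iff_exists_add.mp hT
  have hU0 : U ≠ 0 := by
    rintro rfl
    exact h1 (by rw [add_zero])
  have hUs : U.sum = 0 := by
    have := (h.1 _ hZ).2
    rw [Multiset.sum_add, hs, zero_add] at this
    exact this
  apply h2.2 2 (by simp)
  refine ⟨{T, U}, by simp, ?_, ?_⟩
  · simp
  · intro Y hY
    rw [Multiset.insert_eq_cons, Multiset.mem_cons, Multiset.mem_singleton] at hY
    rcases hY with rfl | rfl
    · exact ⟨h0, hs⟩
    · exact ⟨hU0, hUs⟩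

lemma Opt.zf {P : Multiset (Multiset G)} (h : Opt P) {Z : Multiset G} {x : G}
    (hZ : x ::ₘ Z ∈ P) : ZF Z := by
  intro T hT h0
  refine h.minimal hZ (hT.trans (Multiset.le_cons_self _ _)) h0 ?_
  rintro rfl
  have := Multiset.card_le_card hT
  rw [Multiset.card_cons] at this
  omega

/-- another decomposition with the same number of parts is optimal -/
lemma Opt.of_eq {P Q : Multiset (Multiset G)} (h : Opt P) (hQ : AllZS Q) (hc : card Q = card P)
    (hs : Q.sum = P.sum) : Opt Q := by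
  refine ⟨hQ, ?_⟩
  intro k hk
  rw [hs]
  exact h.2 k (by omega)

lemma Parts.merge {W : Multiset G} {k : ℕ} (h : Parts W (k + 2)) : Parts W (k + 1) := by
  obtain ⟨P, hc, hs, hz⟩ := h
  obtain ⟨A, Q, rfl⟩ : ∃ A Q, P = A ::ₘ Q := by
    obtain ⟨A, hA⟩ := Multiset.card_pos_iff_exists_mem.mp (by omega : 0 < card P)
    obtain ⟨Q, rfl⟩ := Multiset.exists_cons_of_mem hA
    exact ⟨A, Q, rfl⟩
  obtain ⟨B, R, rfl⟩ : ∃ B R, Q = B ::ₘ R := by
    rw [Multiset.card_cons] at hc
    obtain ⟨A, hA⟩ := Multiset.card_pos_iff_exists_mem.mp (by omega : 0 < card Q)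
    obtain ⟨Q, rfl⟩ := Multiset.exists_cons_of_mem hA
    exact ⟨A, Q, rfl⟩
  refine ⟨(A + B) ::ₘ R, ?_, ?_, ?_⟩
  · rw [Multiset.card_cons, Multiset.card_cons] at hc
    rw [Multiset.card_cons]; omega
  · rw [← hs, Multiset.sum_cons, Multiset.sum_cons, Multiset.sum_cons, add_assoc]
  · have hA := hz A (Multiset.mem_cons_self _ _)
    have hB := hz B (Multiset.mem_cons_of_mem (Multiset.mem_cons_self _ _))
    intro Z hZ
    rcases Multiset.mem_cons.mp hZ with rfl | h1
    · refine ⟨?_, by rw [Multiset.sum_add, hA.2, hB.2, add_zero]⟩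
      intro h2
      exact hA.1 (add_eq_zero.mp h2).1
    · exact hz Z (Multiset.mem_cons_of_mem (Multiset.mem_cons_of_mem h1))

lemma Parts.le {W : Multiset G} {k l : ℕ} (h : Parts W k) (h1 : 1 ≤ l) (h2 : l ≤ k) : Parts W l := by
  obtain ⟨d, rfl⟩ := Nat.exists_eq_add_of_le h2
  induction d with
  | zero => exact h
  | succ d ih =>
    apply ih _ (by omega)
    obtain ⟨l', rfl⟩ := Nat.exists_eq_add_of_le h1
    have e : 1 + l' + (d + 1) = (l' + d) + 2 := by omega
    rw [e] at h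
    have := h.merge
    have e' : 1 + l' + d = l' + d + 1 := by omega
    rwa [e']

lemma card_le_of_AllZS {P : Multiset (Multiset G)} (h : AllZS P) : card P ≤ card P.sum := by
  induction P using Multiset.induction_on with
  | empty => simp
  | cons Z P ih =>
    rw [Multiset.card_cons, Multiset.sum_cons, Multiset.card_add]
    have h1 := ih (h.mono (Multiset.le_cons_self _ _))
    have h2 := Multiset.card_pos.mpr (h Z (Multiset.mem_cons_self _ _)).1
    omega

/-- existence of an optimal decomposition -/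
lemma exists_opt {W : Multiset G} (hW : W ≠ 0) (hs : W.sum = 0) : ∃ P, Opt P ∧ P.sum = W := by
  classical
  have h1 : Parts W 1 := ⟨{W}, by simp, by simp, by
    intro Z hZ
    rw [Multiset.mem_singleton] at hZ
    subst hZ
    exact ⟨hW, hs⟩⟩
  have hle : ∀ k, Parts W k → k ≤ card W := by
    rintro k ⟨P, hc, hsum, hz⟩
    rw [← hc, ← hsum]
    exact card_le_of_AllZS hz
  have h2 : Parts W (Nat.findGreatest (Parts W) (card W)) :=
    Nat.findGreatest_spec (hle 1 h1) h1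
  obtain ⟨P, hc, hsum, hz⟩ := h2
  refine ⟨P, ⟨hz, ?_⟩, hsum⟩
  intro k hk hP
  rw [hsum] at hP
  rw [hc] at hk
  exact absurd (Nat.le_findGreatest (hle k hP) hP) (by omega)

/-- exchange of two submultisets with the same sum -/
lemma Opt.swap [DecidableEq G] {Z₁ Z₂ : Multiset G} {R : Multiset (Multiset G)}
    (h : Opt (Z₁ ::ₘ Z₂ ::ₘ R)) {U V : Multiset G} (hU : U ≤ Z₁) (hV : V ≤ Z₂)
    (hs : U.sum = V.sum) (hU0 : U ≠ 0) (hV0 : V ≠ 0) :
    Opt ((Z₁ - U + V) ::ₘ (Z₂ - V + U) ::ₘ R) ∧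
      ((Z₁ - U + V) ::ₘ (Z₂ - V + U) ::ₘ R).sum = (Z₁ ::ₘ Z₂ ::ₘ R).sum := by
  have hsum : ((Z₁ - U + V) ::ₘ (Z₂ - V + U) ::ₘ R).sum = (Z₁ ::ₘ Z₂ ::ₘ R).sum := by
    rw [Multiset.sum_cons, Multiset.sum_cons, Multiset.sum_cons, Multiset.sum_cons]
    obtain ⟨A, rfl⟩ := Multiset.le_iff_exists_add.mp hU
    obtain ⟨B, rfl⟩ := Multiset.le_iff_exists_add.mp hV
    rw [add_tsub_cancel_left, add_tsub_cancel_left]
    abel
  refine ⟨?_, hsum⟩
  refine h.of_eq ?_ (by simp) hsum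
  have hz1 := h.1 Z₁ (Multiset.mem_cons_self _ _)
  have hz2 := h.1 Z₂ (Multiset.mem_cons_of_mem (Multiset.mem_cons_self _ _))
  have hR : AllZS R := h.1.mono ((Multiset.le_cons_self _ _).trans (Multiset.le_cons_self _ _))
  refine (hR.cons ?_ ?_).cons ?_ ?_
  · intro h2
    exact hU0 (add_eq_zero.mp h2).2
  · obtain ⟨B, rfl⟩ := Multiset.le_iff_exists_add.mp hV
    rw [add_tsub_cancel_left]
    have := hz2.2
    rw [Multiset.sum_add] at this ⊢
    rw [hs, add_comm]
    exact this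
  · intro h2
    exact hV0 (add_eq_zero.mp h2).2
  · obtain ⟨A, rfl⟩ := Multiset.le_iff_exists_add.mp hU
    rw [add_tsub_cancel_left]
    have := hz1.2
    rw [Multiset.sum_add] at this ⊢
    rw [← hs, add_comm]
    exact this

end general

section zmod

variable {m : ℕ} [NeZero m]

/-- the least nonnegative residues of the elements of `u Z` -/
def V (u : (ZMod m)ˣ) (Z : Multiset (ZMod m)) : Multiset ℕ := Z.map fun a => ((u : ZMod m) * a).val

/-- the inverse map -/
def bk (u : (ZMod m)ˣ) (n : ℕ) : ZMod m := ((u⁻¹ : (ZMod m)ˣ) : ZMod m) * (n : ZMod m)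

lemma V_add (u : (ZMod m)ˣ) (Z Z' : Multiset (ZMod m)) : V u (Z + Z') = V u Z + V u Z' :=
  Multiset.map_add _ _ _

@[simp] lemma V_zero (u : (ZMod m)ˣ) : V u 0 = 0 := Multiset.map_zero _

lemma V_cons (u : (ZMod m)ˣ) (a : ZMod m) (Z : Multiset (ZMod m)) :
    V u (a ::ₘ Z) = ((u : ZMod m) * a).val ::ₘ V u Z := Multiset.map_cons _ _ _

lemma card_V (u : (ZMod m)ˣ) (Z : Multiset (ZMod m)) : card (V u Z) = card Z := Multiset.card_map _ _

lemma bk_V (u : (ZMod m)ˣ) (Z : Multiset (ZMod m)) : (V u Z).map (bk u) = Z := by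
  unfold V
  rw [Multiset.map_map]
  conv_rhs => rw [← Multiset.map_id Z]
  apply Multiset.map_congr rfl
  intro a _
  simp only [Function.comp_apply, bk, ZMod.natCast_val, ZMod.cast_id', id_eq]
  rw [← mul_assoc]
  simp

lemma sum_bk (u : (ZMod m)ˣ) (A : Multiset ℕ) : (A.map (bk u)).sum = bk u A.sum := by
  induction A using Multiset.induction_on with
  | empty => simp [bk]
  | cons a A ih =>
    rw [Multiset.map_cons, Multiset.sum_cons, ih, Multiset.sum_cons]
    unfold bk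
    push_cast
    ring

lemma bk_eq_zero (u : (ZMod m)ˣ) {n : ℕ} : bk u n = 0 ↔ m ∣ n := by
  unfold bk
  rw [Units.mul_right_eq_zero]
  exact ZMod.natCast_eq_zero_iff n m

lemma V_sum_dvd (u : (ZMod m)ˣ) (Z : Multiset (ZMod m)) : m ∣ (V u Z).sum ↔ Z.sum = 0 := by
  rw [← bk_eq_zero u, ← sum_bk, bk_V]

lemma mem_V (u : (ZMod m)ˣ) {Z : Multiset (ZMod m)} (h0 : (0 : ZMod m) ∉ Z) {x : ℕ}
    (hx : x ∈ V u Z) : 1 ≤ x ∧ x < m := by
  obtain ⟨a, ha, rfl⟩ := Multiset.mem_map.mp hx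
  refine ⟨?_, ZMod.val_lt _⟩
  rw [Nat.one_le_iff_ne_zero]
  intro h
  rw [ZMod.val_eq_zero, Units.mul_right_eq_zero] at h
  exact h0 (h ▸ ha)

lemma V_sum_ge (u : (ZMod m)ˣ) {Z : Multiset (ZMod m)} (h0 : (0 : ZMod m) ∉ Z) (hZ : Z ≠ 0)
    (hs : Z.sum = 0) : m ≤ (V u Z).sum := by
  apply Nat.le_of_dvd _ ((V_sum_dvd u Z).mpr hs)
  obtain ⟨a, ha⟩ := Multiset.exists_mem_of_ne_zero hZ
  have h1 : ((u : ZMod m) * a).val ∈ V u Z := Multiset.mem_map_of_mem _ ha
  have h2 := Multiset.le_sum_of_mem h1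
  have h3 := (mem_V u h0 h1).1
  omega

/-- a decomposition of the residues gives a decomposition -/
lemma parts_of_nat (u : (ZMod m)ˣ) (Z : Multiset (ZMod m)) (P : Multiset (Multiset ℕ))
    (hP : P.sum = V u Z) (hz : ∀ A ∈ P, A ≠ 0 ∧ m ∣ A.sum) : Parts Z (card P) := by
  refine ⟨P.map (Multiset.map (bk u)), by rw [Multiset.card_map], ?_, ?_⟩
  · have h1 : ∀ Q : Multiset (Multiset ℕ), (Q.map (Multiset.map (bk u))).sum = Q.sum.map (bk u) := by
      intro Q
      induction Q using Multiset.induction_on with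
      | empty => simp
      | cons A Q ih => rw [Multiset.map_cons, Multiset.sum_cons, ih, Multiset.sum_cons, Multiset.map_add]
    rw [h1, hP, bk_V]
  · intro Y hY
    obtain ⟨A, hA, rfl⟩ := Multiset.mem_map.mp hY
    obtain ⟨h1, h2⟩ := hz A hA
    refine ⟨?_, ?_⟩
    · intro h3
      exact h1 (Multiset.map_eq_zero.mp h3)
    · rw [sum_bk, bk_eq_zero]
      exact h2

/-- no decomposition of the residues has too many parts -/
lemma Opt.nat {Q : Multiset (Multiset (ZMod m))} (h : Opt Q) (u : (ZMod m)ˣ)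
    (P : Multiset (Multiset ℕ)) (hP : P.sum = V u Q.sum) (hz : ∀ A ∈ P, A ≠ 0 ∧ m ∣ A.sum) :
    card P ≤ card Q := by
  by_contra hcon
  push Not at hcon
  exact h.2 _ hcon (parts_of_nat u _ P hP hz)

end zmod

end Pool.Agent.N998.ZS
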