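import Pool.Agent.N998.ZS.Pack

/-!
The case of a long block.
-/

set_option linter.unusedSectionVars false

namespace Pool.Agent.N998.ZS

open Multiset

variable {m : ℕ} [NeZero m]

lemma sub_ne (u : (ZMod m)ˣ) {P : Multiset (Multiset (ZMod m))} (h : Opt P) {B : Multiset (ZMod m)}
    (hB : B ∈ P) {X : Multiset ℕ} (hX : X ≤ V u B) (hd : m ∣ X.sum) (h0 : X ≠ 0) : X = V u B := by
  by_contra h1
  apply h.minimal hB (T := X.map (bk u))
  · have := Multiset.map_le_map (f := bk u) hX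
    rwa [bk_V] at this
  · intro h2
    exact h0 (Multiset.map_eq_zero.mp h2)
  · intro h2
    have h3 := congrArg card h2
    rw [Multiset.card_map, ← card_V u B] at h3
    exact h1 (Multiset.eq_of_le_of_card_le hX (by omega))
  · rw [sum_bk, bk_eq_zero]
    exact hd

lemma bad_cross (u : (ZMod m)ˣ) {P : Multiset (Multiset (ZMod m))} (h : Opt P)
    {B : Multiset (ZMod m)} (hB : B ∈ P) (h0 : (0 : ZMod m) ∉ B) (X₁ X₂ : Multiset ℕ)
    (hX : V u B = X₁ + X₂) (hX₁ : X₁.sum ≤ m) (hbad : m < (V u B).sum) :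
    ∃ A₁ z A₂, X₂ = A₁ + z ::ₘ A₂ ∧ (X₁ + A₁).sum < m ∧ m < (X₁ + A₁).sum + z ∧ z < m ∧
      V u B = (X₁ + A₁) + z ::ₘ A₂ := by
  rw [hX, Multiset.sum_add] at hbad
  obtain ⟨A₁, z, A₂, h1, h2, h3⟩ := cross X₂ (m - X₁.sum) (by omega)
  have hV : V u B = (X₁ + A₁) + z ::ₘ A₂ := by rw [hX, h1, add_assoc]
  have hz : z ∈ V u B := by
    rw [hV]
    exact Multiset.mem_add.mpr (Or.inr (Multiset.mem_cons_self _ _))
  refine ⟨A₁, z, A₂, h1, ?_, ?_, (mem_V u h0 hz).2, hV⟩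
  · rw [Multiset.sum_add]
    by_contra hcon
    have h4 : (X₁ + A₁).sum = m := by rw [Multiset.sum_add]; omega
    have h5 := sub_ne u h hB (X := X₁ + A₁) (by rw [hV]; exact Multiset.le_add_right _ _)
      (by rw [h4]) (by
        intro h6
        rw [h6, Multiset.sum_zero] at h4
        exact NeZero.ne m h4.symm)
    rw [hV] at h5
    have := congrArg card h5
    simp only [Multiset.card_add, Multiset.card_cons] at this
    omega
  · rw [Multiset.sum_add]
    omega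

lemma no_split (u : (ZMod m)ˣ) {Q : Multiset (Multiset (ZMod m))} {B : Multiset (ZMod m)}
    (hopt : Opt (B ::ₘ Q)) {A₁ A₂ : Multiset ℕ} {z : ℕ} (hB : V u B = A₁ + z ::ₘ A₂)
    (hs : A₁.sum < m) (hz : m < A₁.sum + z) (C₁ C₂ C₃ : Multiset ℕ)
    (R : Multiset (Multiset ℕ)) (hQ : V u Q.sum = C₁ + C₂ + C₃ + R.sum)
    (h1 : C₁.sum + A₁.sum = m) (h2 : C₂.sum + m = A₁.sum + z) (h3 : C₃.sum + z = m)
    (hR : ∀ r ∈ R, r ≠ 0 ∧ m ∣ r.sum) : card R + 2 ≤ card Q := by
  have hm := NeZero.pos m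
  have hBs : m ∣ (V u B).sum := (V_sum_dvd u B).mpr (hopt.1 B (Multiset.mem_cons_self _ _)).2
  have key := hopt.nat u ((A₁ + C₁) ::ₘ (A₂ + C₂) ::ₘ (z ::ₘ C₃) ::ₘ R) (by
    rw [Multiset.sum_cons, Multiset.sum_cons, Multiset.sum_cons, Multiset.sum_cons, V_add, hB, hQ,
      ← Multiset.singleton_add z C₃, ← Multiset.singleton_add z A₂]
    abel) (by
    intro X hX
    rcases Multiset.mem_cons.mp hX with rfl | hX
    · have h4 : (A₁ + C₁).sum = m := by rw [Multiset.sum_add]; omega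
      refine ⟨?_, by rw [h4]⟩
      intro h5
      rw [h5, Multiset.sum_zero] at h4
      omega
    rcases Multiset.mem_cons.mp hX with rfl | hX
    · refine ⟨?_, ?_⟩
      · intro h5
        rw [(add_eq_zero.mp h5).2, Multiset.sum_zero] at h2
        omega
      · rw [hB, Multiset.sum_add, Multiset.sum_cons] at hBs
        rw [Multiset.sum_add]
        have h6 : A₂.sum + C₂.sum + m = A₁.sum + (z + A₂.sum) := by omega
        rw [← h6] at hBs
        exact (Nat.dvd_add_left (dvd_refl m)).mp hBs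
    rcases Multiset.mem_cons.mp hX with rfl | hX
    · refine ⟨Multiset.cons_ne_zero, ?_⟩
      rw [Multiset.sum_cons]
      have : z + C₃.sum = m := by omega
      rw [this]
    · exact hR X hX)
  simp only [Multiset.card_cons] at key
  omega

lemma caseA (u : (ZMod m)ˣ) {Z₁ Z₂ : Multiset (ZMod m)} (hopt : Opt (Z₂ ::ₘ {Z₁}))
    (h01 : (0 : ZMod m) ∉ Z₁) (h02 : (0 : ZMod m) ∉ Z₂) (hZ₁ : (V u Z₁).sum = m)
    (hlong : m + 3 ≤ 2 * card Z₁) (hlen : m + 2 ≤ card Z₁ + card Z₂)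
    (hmax : ∀ U ≤ Z₁, U.sum ∈ Z₂ → card U + card Z₂ ≤ card Z₁ + 1) :
    (V u Z₂).sum = m := by
  have hmem : Z₂ ∈ (Z₂ ::ₘ {Z₁} : Multiset (Multiset (ZMod m))) := Multiset.mem_cons_self _ _
  have hge := V_sum_ge u h02 (hopt.1 Z₂ hmem).1 (hopt.1 Z₂ hmem).2
  by_contra hne
  obtain ⟨A₁, z, A₂, -, h2, h3, h4, h5⟩ := bad_cross u hopt hmem h02 0 (V u Z₂) (by rw [zero_add])
    (by rw [Multiset.sum_zero]; exact Nat.zero_le _) (by omega)
  rw [zero_add] at h2 h3 h5
  obtain ⟨n, Y, hY1, hY2, hY3⟩ := ones_split (V u Z₁) (fun x hx => (mem_V u h01 hx).1)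
  have hcard : n + card Y = card Z₁ := by
    rw [← card_V u Z₁, hY1, Multiset.card_add, Multiset.card_replicate]
  have hsum : n + Y.sum = m := by
    rw [← hZ₁, hY1, Multiset.sum_add, Multiset.sum_replicate, smul_eq_mul, mul_one]
  have hzn : z ≤ n := by
    by_contra hcon
    push Not at hcon
    obtain ⟨U, hU, hU1, hU2⟩ := pick n (2 * card Z₁ - m) Y (by
      intro y hy
      obtain ⟨Y', rfl⟩ := Multiset.exists_cons_of_mem hy
      have h6 := two_card_le Y' (fun x hx => hY2 x (Multiset.mem_cons_of_mem hx))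
      rw [Multiset.sum_cons] at hsum
      rw [Multiset.card_cons] at hcard
      omega) z hcon (by omega)
    rw [← hY1] at hU
    have hU3 : U.map (bk u) ≤ Z₁ := by
      have := Multiset.map_le_map (f := bk u) hU
      rwa [bk_V] at this
    have hz : z ∈ V u Z₂ := by
      rw [h5]; exact Multiset.mem_add.mpr (Or.inr (Multiset.mem_cons_self _ _))
    have := hmax _ hU3 (by
      rw [sum_bk, hU1]
      have := Multiset.mem_map_of_mem (bk u) hz
      rwa [bk_V] at this)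
    rw [Multiset.card_map] at this
    omega
  have := no_split u hopt h5 h2 h3 (replicate (m - A₁.sum) 1) (replicate (A₁.sum + z - m) 1)
    (replicate (n - z) 1 + Y) 0 (by
      rw [Multiset.sum_singleton, hY1, Multiset.sum_zero, add_zero, ← add_assoc,
        ← Multiset.replicate_add, ← Multiset.replicate_add]
      congr 2
      omega) (by simp; omega) (by simp; omega) (by simp; omega) (by simp)
  simp at this

/-- the largest elements of two long multisets with sum `m` -/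
lemma pair_le_aux {X₁ X₃ : Multiset ℕ} (h1 : ∀ x ∈ X₁, 1 ≤ x) (h3 : ∀ x ∈ X₃, 1 ≤ x)
    (hs1 : X₁.sum = m) (hs3 : X₃.sum = m) (hc : m + 2 ≤ card X₁ + card X₃) {p q : ℕ}
    (hp : p ∈ X₁) (h : p ::ₘ {q} ≤ X₁ + X₃) : p + q ≤ m := by
  obtain ⟨X, rfl⟩ := Multiset.exists_cons_of_mem hp
  rw [Multiset.cons_add, Multiset.cons_le_cons_iff, Multiset.singleton_le, Multiset.mem_add] at h
  rcases h with h | h
  · obtain ⟨X', rfl⟩ := Multiset.exists_cons_of_mem h
    rw [Multiset.sum_cons, Multiset.sum_cons] at hs1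
    omega
  · obtain ⟨X', rfl⟩ := Multiset.exists_cons_of_mem h
    have h4 := card_le_sum X (fun x hx => h1 x (Multiset.mem_cons_of_mem hx))
    have h5 := card_le_sum X' (fun x hx => h3 x (Multiset.mem_cons_of_mem hx))
    rw [Multiset.sum_cons] at hs1 hs3
    rw [Multiset.card_cons, Multiset.card_cons] at hc
    omega

lemma pair_le {X₁ X₃ : Multiset ℕ} (h1 : ∀ x ∈ X₁, 1 ≤ x) (h3 : ∀ x ∈ X₃, 1 ≤ x)
    (hs1 : X₁.sum = m) (hs3 : X₃.sum = m) (hc : m + 2 ≤ card X₁ + card X₃) {p q : ℕ}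
    (h : p ::ₘ {q} ≤ X₁ + X₃) : p + q ≤ m := by
  have hp : p ∈ X₁ + X₃ := Multiset.mem_of_le h (Multiset.mem_cons_self _ _)
  rcases Multiset.mem_add.mp hp with hp | hp
  · exact pair_le_aux h1 h3 hs1 hs3 hc hp h
  · exact pair_le_aux h3 h1 hs3 hs1 (by omega) hp (by rwa [add_comm])

lemma exists_max {Y : Multiset ℕ} (h : Y ≠ 0) : ∃ p Y', Y = p ::ₘ Y' ∧ ∀ y ∈ Y', y ≤ p := by
  classical
  obtain ⟨a, ha⟩ := Multiset.exists_mem_of_ne_zero h
  obtain ⟨p, hp, hmax⟩ := Finset.exists_max_image Y.toFinset (fun x => x)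
    ⟨a, Multiset.mem_toFinset.mpr ha⟩
  obtain ⟨Y', rfl⟩ := Multiset.exists_cons_of_mem (Multiset.mem_toFinset.mp hp)
  exact ⟨p, Y', rfl, fun y hy => hmax y (Multiset.mem_toFinset.mpr (Multiset.mem_cons_of_mem hy))⟩

/-- two largest elements -/
lemma two_largest {n : ℕ} {Y : Multiset ℕ} (hY : ∀ y ∈ Y, 2 ≤ y)
    (hpair : ∀ p q, p ::ₘ {q} ≤ Y → p + q ≤ m) (hsingle : ∀ p ∈ Y, p ≤ m)
    (hsum : n + Y.sum = 2 * m) (hcard : m + 2 ≤ n + card Y) :
    ∃ Q Y', Y = Q + Y' ∧ Q.sum ≤ m ∧ ∀ y ∈ Y', 3 * y ≤ n + 3 := by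
  by_cases h0 : Y = 0
  · exact ⟨0, 0, by rw [h0, add_zero], by simp, by simp⟩
  obtain ⟨p, Y₁, rfl, hp⟩ := exists_max h0
  by_cases h1 : Y₁ = 0
  · exact ⟨{p}, 0, by rw [h1, add_zero]; rfl,
      by simpa using hsingle p (Multiset.mem_cons_self _ _), by simp⟩
  obtain ⟨q, Y₂, rfl, hq⟩ := exists_max h1
  refine ⟨p ::ₘ {q}, Y₂, ?_, ?_, ?_⟩
  · rw [Multiset.cons_add, Multiset.singleton_add]
  · have := hpair p q (Multiset.cons_le_cons p (Multiset.singleton_le.mpr (Multiset.mem_cons_self _ _)))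
    simpa using this
  · intro y hy
    have h2 := hq y hy
    have h3 := hp q (Multiset.mem_cons_self _ _)
    obtain ⟨Y₃, rfl⟩ := Multiset.exists_cons_of_mem hy
    have h4 := two_card_le Y₃ (fun x hx => hY x (Multiset.mem_cons_of_mem
      (Multiset.mem_cons_of_mem (Multiset.mem_cons_of_mem hx))))
    rw [Multiset.sum_cons, Multiset.sum_cons, Multiset.sum_cons] at hsum
    rw [Multiset.card_cons, Multiset.card_cons, Multiset.card_cons] at hcard
    omega

lemma caseB (u : (ZMod m)ˣ) {Z₁ Z₃ B : Multiset (ZMod m)} (hopt : Opt (B ::ₘ Z₁ ::ₘ {Z₃}))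
    (h01 : (0 : ZMod m) ∉ Z₁) (h03 : (0 : ZMod m) ∉ Z₃) (h0B : (0 : ZMod m) ∉ B)
    (hZ₁ : (V u Z₁).sum = m) (hZ₃ : (V u Z₃).sum = m)
    (hlen : m + 2 ≤ card Z₁ + card Z₃) : (V u B).sum = m := by
  have hmem : B ∈ (B ::ₘ Z₁ ::ₘ {Z₃} : Multiset (Multiset (ZMod m))) := Multiset.mem_cons_self _ _
  have hge := V_sum_ge u h0B (hopt.1 B hmem).1 (hopt.1 B hmem).2
  by_contra hne
  obtain ⟨A₁, z, A₂, -, h2, h3, h4, h5⟩ := bad_cross u hopt hmem h0B 0 (V u B) (by rw [zero_add])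
    (by rw [Multiset.sum_zero]; exact Nat.zero_le _) (by omega)
  rw [zero_add] at h2 h3 h5
  have hx1 : ∀ x ∈ V u Z₁, 1 ≤ x := fun x hx => (mem_V u h01 hx).1
  have hx3 : ∀ x ∈ V u Z₃, 1 ≤ x := fun x hx => (mem_V u h03 hx).1
  obtain ⟨n, Y, hY1, hY2, hY3⟩ := ones_split (V u Z₁ + V u Z₃) (by
    intro x hx
    rcases Multiset.mem_add.mp hx with h | h
    · exact hx1 x h
    · exact hx3 x h)
  have hcard : n + card Y = card Z₁ + card Z₃ := by
    rw [← card_V u Z₁, ← card_V u Z₃, ← Multiset.card_add, hY1, Multiset.card_add,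
      Multiset.card_replicate]
  have hsum : n + Y.sum = 2 * m := by
    have : (V u Z₁ + V u Z₃).sum = 2 * m := by rw [Multiset.sum_add, hZ₁, hZ₃]; ring
    rw [← this, hY1, Multiset.sum_add, Multiset.sum_replicate, smul_eq_mul, mul_one]
  obtain ⟨Q, Y', hQ, hQs, hY'⟩ := two_largest (m := m) (n := n) hY2 (by
    intro p q hpq
    exact pair_le hx1 hx3 hZ₁ hZ₃ (by rw [card_V, card_V]; exact hlen) (hpq.trans hY3)) (by
    intro p hp
    rcases Multiset.mem_add.mp (Multiset.mem_of_le hY3 hp) with h | h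
    · exact (mem_V u h01 h).2.le
    · exact (mem_V u h03 h).2.le) hsum (by omega)
  obtain ⟨C, hC1, hC2⟩ := pack (k := 3) n Y' ![m - A₁.sum, A₁.sum + z - m, m - z, m - Q.sum] (by
    rw [Fin.sum_univ_four]
    simp only [Matrix.cons_val_zero, Matrix.cons_val_one, Matrix.cons_val]
    rw [hQ, Multiset.sum_add] at hsum
    omega) hY' (by
    intro y hy
    have := hY2 y (by rw [hQ]; exact Multiset.mem_add.mpr (Or.inr hy))
    omega)
  have c0 : (C 0).sum = m - A₁.sum := hC2 0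
  have c1 : (C 1).sum = A₁.sum + z - m := hC2 1
  have c2 : (C 2).sum = m - z := hC2 2
  have c3 : (C 3).sum = m - Q.sum := hC2 3
  have := no_split u (Q := Z₁ ::ₘ {Z₃}) hopt h5 h2 h3 (C 0) (C 1) (C 2) {C 3 + Q} (by
      rw [Multiset.sum_cons, Multiset.sum_singleton, Multiset.sum_singleton, V_add, hY1, hQ]
      rw [Fin.sum_univ_four] at hC1
      calc replicate n 1 + (Q + Y') = (Y' + replicate n 1) + Q := by abel
        _ = _ := by rw [← hC1]; abel) (by omega) (by omega) (by omega) (by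
      intro r hr
      rw [Multiset.mem_singleton] at hr
      subst hr
      have h6 : (C 3 + Q).sum = m := by rw [Multiset.sum_add]; omega
      refine ⟨?_, by rw [h6]⟩
      intro h7
      rw [h7, Multiset.sum_zero] at h6
      exact NeZero.ne m h6.symm)
  simp at this

end Pool.Agent.N998.ZS
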