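import Pool.Agent.N998.ZS.Long

/-!
The theorem in the presence of a long block.
-/

set_option linter.unusedSectionVars false

namespace Pool.Agent.N998.ZS

open Multiset

variable {m : ℕ} [NeZero m]

lemma card_sum_le {G : Type*} {R : Multiset (Multiset G)} {k : ℕ} (h : ∀ Z ∈ R, 2 * card Z ≤ k) :
    2 * card R.sum ≤ card R * k := by
  induction R using Multiset.induction_on with
  | empty => simp
  | cons Z R ih =>
    rw [Multiset.sum_cons, Multiset.card_add, Multiset.card_cons, add_mul, one_mul]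
    have h1 := h Z (Multiset.mem_cons_self _ _)
    have h2 := ih (fun Y hY => h Y (Multiset.mem_cons_of_mem hY))
    omega

lemma V_sum_eq (u : (ZMod m)ˣ) {Q : Multiset (Multiset (ZMod m))}
    (h : ∀ Z ∈ Q, (V u Z).sum = m) : (V u Q.sum).sum = card Q * m := by
  induction Q using Multiset.induction_on with
  | empty => simp
  | cons Z Q ih =>
    rw [Multiset.sum_cons, V_add, Multiset.sum_add, h Z (Multiset.mem_cons_self _ _),
      ih (fun Y hY => h Y (Multiset.mem_cons_of_mem hY)), Multiset.card_cons]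
    ring

lemma notMem_of_sum {G : Type*} {a : G} {Q : Multiset (Multiset G)} (h : a ∉ Q.sum) :
    ∀ Z ∈ Q, a ∉ Z := by
  intro Z hZ ha
  obtain ⟨R, rfl⟩ := Multiset.exists_cons_of_mem hZ
  rw [Multiset.sum_cons] at h
  exact h (Multiset.mem_add.mpr (Or.inl ha))

lemma long_unit {P : Multiset (Multiset (ZMod m))} (hopt : Opt P) {Z : Multiset (ZMod m)}
    (hZ : Z ∈ P) (h0 : (0 : ZMod m) ∉ Z) (hl : m + 3 ≤ 2 * card Z) :
    ∃ u : (ZMod m)ˣ, (V u Z).sum = m := by
  obtain ⟨x, hx⟩ := Multiset.exists_mem_of_ne_zero (hopt.1 Z hZ).1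
  obtain ⟨Z', rfl⟩ := Multiset.exists_cons_of_mem hx
  rw [Multiset.card_cons] at hl
  obtain ⟨u, hu⟩ := savchev_chen Z' (hopt.zf hZ) (by omega)
  refine ⟨u, ?_⟩
  have h1 : (V u Z').sum < m := hu
  have h2 := V_sum_ge u h0 (hopt.1 _ hZ).1 (hopt.1 _ hZ).2
  have h3 := (V_sum_dvd u (x ::ₘ Z')).mpr (hopt.1 _ hZ).2
  have h4 : ((u : ZMod m) * x).val < m := ZMod.val_lt _
  rw [V_cons, Multiset.sum_cons] at h2 h3 ⊢
  obtain ⟨k, hk⟩ := h3
  have hk2 : k < 2 := by
    by_contra hcon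
    push Not at hcon
    have := Nat.mul_le_mul_left m hcon
    omega
  have hk1 : k ≠ 0 := by
    rintro rfl
    have := NeZero.pos m
    omega
  have hk : k = 1 := by omega
  subst hk
  omega

theorem main_long {W : Multiset (ZMod m)} {P : Multiset (Multiset (ZMod m))} (hP : Opt P)
    (hW : P.sum = W) (h0 : (0 : ZMod m) ∉ W) (hcount : card P * m + 3 ≤ 2 * card W)
    (hlong : ∃ Z ∈ P, m + 3 ≤ 2 * card Z) : ∃ u : (ZMod m)ˣ, (V u W).sum = card P * m := by
  classical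
  obtain ⟨Z₀, hZ₀, hl₀⟩ := hlong
  set p : ℕ → Prop := fun n => ∃ Q Z, Opt Q ∧ Q.sum = W ∧ card Q = card P ∧ Z ∈ Q ∧ card Z = n
    with hp
  have hbound : ∀ n, p n → n ≤ card W := by
    rintro n ⟨Q, Z, -, hs, -, hZ, rfl⟩
    rw [← hs]
    obtain ⟨R, rfl⟩ := Multiset.exists_cons_of_mem hZ
    rw [Multiset.sum_cons, Multiset.card_add]
    omega
  have h1 : p (card Z₀) := ⟨P, Z₀, hP, hW, rfl, hZ₀, rfl⟩
  obtain ⟨Q, Z₁, hQ, hQs, hQc, hZ₁, hZc⟩ := Nat.findGreatest_spec (hbound _ h1) h1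
  have hmaxZ : ∀ n, p n → n ≤ card Z₁ := by
    intro n hn
    rw [hZc]
    exact Nat.le_findGreatest (hbound n hn) hn
  have hl₁ : m + 3 ≤ 2 * card Z₁ := by
    have := hmaxZ _ h1
    omega
  have hQ0 : ∀ Z ∈ Q, (0 : ZMod m) ∉ Z := notMem_of_sum (by rw [hQs]; exact h0)
  obtain ⟨u, hu⟩ := long_unit hQ hZ₁ (hQ0 _ hZ₁) hl₁
  obtain ⟨Q', hQ'⟩ := Multiset.exists_cons_of_mem hZ₁
  -- case A
  have hA : ∀ B ∈ Q', m + 2 ≤ card Z₁ + card B → (V u B).sum = m := by
    intro B hB hlen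
    obtain ⟨R, hR⟩ := Multiset.exists_cons_of_mem hB
    have hopt2 : Opt (B ::ₘ {Z₁}) := by
      apply hQ.mono
      rw [hQ', hR, Multiset.cons_swap]
      exact Multiset.cons_le_cons _ (Multiset.singleton_le.mpr (Multiset.mem_cons_self _ _))
    have hBQ : B ∈ Q := by rw [hQ']; exact Multiset.mem_cons_of_mem hB
    apply caseA u hopt2 (hQ0 _ hZ₁) (hQ0 _ hBQ) hu hl₁ hlen
    intro U hU hUB
    have hsw := Opt.swap (Z₁ := Z₁) (Z₂ := B) (R := R) (by rw [← hR, ← hQ']; exact hQ)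
      (U := U) (V := {U.sum}) hU (Multiset.singleton_le.mpr hUB) (by simp) (by
        rintro rfl
        rw [Multiset.sum_zero] at hUB
        exact hQ0 _ hBQ hUB) (by simp)
    have h2 := hmaxZ (card (B - {U.sum} + U)) ⟨_, B - {U.sum} + U, hsw.1, by
      rw [hsw.2, ← hR, ← hQ', hQs], by
      rw [← hQc, hQ', hR]; simp, by
      exact Multiset.mem_cons_of_mem (Multiset.mem_cons_self _ _), rfl⟩
    rw [Multiset.card_add, Multiset.card_sub (Multiset.singleton_le.mpr hUB),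
      Multiset.card_singleton] at h2
    omega
  -- all the other blocks
  have hB : ∀ B ∈ Q', (V u B).sum = m := by
    intro B hB
    by_cases hlen : m + 2 ≤ card Z₁ + card B
    · exact hA B hB hlen
    obtain ⟨R, hR⟩ := Multiset.exists_cons_of_mem hB
    obtain ⟨Z₃, hZ₃, hl₃⟩ : ∃ Z₃ ∈ R, m < 2 * card Z₃ := by
      by_contra hcon
      push Not at hcon
      have h2 := card_sum_le hcon
      rw [← hQs, hQ', hR, Multiset.sum_cons, Multiset.sum_cons, Multiset.card_add,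
        Multiset.card_add, ← hQc, hQ', hR, Multiset.card_cons, Multiset.card_cons] at hcount
      rw [add_mul, add_mul, one_mul] at hcount
      omega
    obtain ⟨R', hR'⟩ := Multiset.exists_cons_of_mem hZ₃
    have hZ₃Q' : Z₃ ∈ Q' := by rw [hR]; exact Multiset.mem_cons_of_mem hZ₃
    have hgood := hA Z₃ hZ₃Q' (by omega)
    have hopt3 : Opt (B ::ₘ Z₁ ::ₘ {Z₃}) := by
      apply hQ.mono
      rw [hQ', hR, Multiset.cons_swap, hR']
      exact Multiset.cons_le_cons _ (Multiset.cons_le_cons _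
        (Multiset.singleton_le.mpr (Multiset.mem_cons_self _ _)))
    exact caseB u hopt3 (hQ0 _ hZ₁) (hQ0 _ (by rw [hQ']; exact Multiset.mem_cons_of_mem hZ₃Q'))
      (hQ0 _ (by rw [hQ']; exact Multiset.mem_cons_of_mem hB)) hu hgood (by omega)
  refine ⟨u, ?_⟩
  rw [← hQs, ← hQc]
  apply V_sum_eq
  intro Z hZ
  rw [hQ'] at hZ
  rcases Multiset.mem_cons.mp hZ with rfl | hZ
  · exact hu
  · exact hB Z hZ

end Pool.Agent.N998.ZS
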