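import Pool.Agent.N998.ZS.Odd

/-!
The main theorem on zero-sum multisets of residues.
-/

set_option linter.unusedSectionVars false

namespace Pool.Agent.N998.ZS

open Multiset

variable {m : ℕ} [NeZero m]

theorem main {W : Multiset (ZMod m)} {P : Multiset (Multiset (ZMod m))} (hP : Opt P)
    (hW : P.sum = W) (h0 : (0 : ZMod m) ∉ W) (hcount : card P * m + 3 ≤ 2 * card W) :
    ∃ u : (ZMod m)ˣ, (V u W).sum = card P * m := by
  classical
  have hm := NeZero.pos m
  by_cases hlong : ∃ Q : Multiset (Multiset (ZMod m)), Opt Q ∧ Q.sum = W ∧ card Q = card P ∧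
      ∃ Z ∈ Q, m + 3 ≤ 2 * card Z
  · obtain ⟨Q, hQ, hQs, hQc, hZ⟩ := hlong
    obtain ⟨u, hu⟩ := main_long hQ hQs h0 (by rw [hQc]; exact hcount) hZ
    exact ⟨u, by rw [hu, hQc]⟩
  push Not at hlong
  have hshort : Short W (card P) := by
    intro Q hQ hQs hQc Z hZ
    have := hlong Q hQ hQs hQc Z hZ
    omega
  by_cases hm3 : 3 ≤ m
  · exact main_short hP hW h0 hcount hm3 hshort
  have hP0 : ∀ Z ∈ P, (0 : ZMod m) ∉ Z := notMem_of_sum (by rw [hW]; exact h0)
  by_cases hm1 : m = 1
  · exfalso
    subst hm1
    have : W = 0 := by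
      apply Multiset.eq_zero_of_forall_notMem
      intro a ha
      exact h0 (by rwa [Subsingleton.elim (0 : ZMod 1) a])
    rw [this, Multiset.card_zero] at hcount
    omega
  have hm2 : m = 2 := by omega
  refine ⟨1, ?_⟩
  rw [← hW]
  apply V_sum_eq
  intro Z hZ
  have h1 : V 1 Z = replicate (card Z) 1 := by
    rw [← card_V 1 Z]
    apply Multiset.eq_replicate_card.mpr
    intro b hb
    have := mem_V 1 (hP0 Z hZ) hb
    omega
  have hge := V_sum_ge 1 (hP0 Z hZ) (hP.1 Z hZ).1 (hP.1 Z hZ).2
  rw [h1, Multiset.sum_replicate, smul_eq_mul, mul_one] at hge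
  have h2 := sub_ne 1 hP hZ (X := replicate 2 1) (by
    rw [h1]; exact (Multiset.replicate_le_replicate 1).mpr (by omega)) (by
    rw [Multiset.sum_replicate, hm2]; norm_num) (by
    intro h
    have := congrArg card h
    rw [Multiset.card_replicate, Multiset.card_zero] at this
    omega)
  rw [← h2, Multiset.sum_replicate, hm2]
  norm_num

/-- **Main theorem.** Let `s` be a multiset of nonzero residues modulo `m` with sum zero and
`2 |s| ≥ c m + 3`. It is the union of `c + 1` nonempty multisets of sum zero if and only if for all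
units `t` the least positive residues of `t s` have sum at least `(c + 1) m`. -/
theorem parts_iff (c : ℕ) (s : Multiset (ZMod m)) (h0 : (0 : ZMod m) ∉ s) (hs : s.sum = 0)
    (hlen : c * m + 3 ≤ 2 * card s) :
    Parts s (c + 1) ↔
      ∀ t : (ZMod m)ˣ, (c + 1) * m ≤ (s.map (fun a => ((t : ZMod m) * a).val)).sum := by
  constructor
  · rintro ⟨P, hc, hP, hz⟩ t
    subst hP
    rw [← hc]
    have h1 := notMem_of_sum h0
    clear h0 hs hlen hc
    show card P * m ≤ (V t P.sum).sum
    induction P using Multiset.induction_on with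
    | empty => simp
    | cons Z P ih =>
      rw [Multiset.card_cons, Multiset.sum_cons, V_add, Multiset.sum_add, add_mul, one_mul]
      have h2 := ih (fun Y hY => hz Y (Multiset.mem_cons_of_mem hY))
        (fun Y hY => h1 Y (Multiset.mem_cons_of_mem hY))
      have h3 := V_sum_ge t (h1 Z (Multiset.mem_cons_self _ _))
        (hz Z (Multiset.mem_cons_self _ _)).1 (hz Z (Multiset.mem_cons_self _ _)).2
      omega
  · intro h
    have hs0 : s ≠ 0 := by
      rintro rfl
      rw [Multiset.card_zero] at hlen
      omega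
    obtain ⟨P, hP, hPs⟩ := exists_opt hs0 hs
    by_cases hcP : c + 1 ≤ card P
    · have h1 : Parts s (card P) := ⟨P, rfl, hPs, hP.1⟩
      exact h1.le (by omega) hcP
    · exfalso
      have hle : card P * m ≤ c * m := Nat.mul_le_mul_right m (by omega)
      obtain ⟨u, hu⟩ := main hP hPs h0 (by omega)
      have h2 : (c + 1) * m ≤ (V u s).sum := h u
      rw [hu, add_mul, one_mul] at h2
      have := NeZero.pos m
      omega

end Pool.Agent.N998.ZS
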