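import Pool.Agent.N998.ZS.Shape

/-!
The case without long blocks.
-/

set_option linter.unusedSectionVars false

namespace Pool.Agent.N998.ZS

open Multiset

variable {m : ℕ} [NeZero m]

lemma cross3 (u : (ZMod m)ˣ) {P : Multiset (Multiset (ZMod m))} (h : Opt P)
    {B : Multiset (ZMod m)} (hB : B ∈ P) (h0 : (0 : ZMod m) ∉ B) (X₁ X₂ X₃ : Multiset ℕ)
    (hX : V u B = X₁ + X₂ + X₃) (hX₁ : X₁.sum ≤ m) (hbad : m < (X₁ + X₂).sum) :
    ∃ A₁ z A₂, X₂ = A₁ + z ::ₘ A₂ ∧ (X₁ + A₁).sum < m ∧ m < (X₁ + A₁).sum + z ∧ z < m ∧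
      V u B = (X₁ + A₁) + z ::ₘ (A₂ + X₃) := by
  rw [Multiset.sum_add] at hbad
  obtain ⟨A₁, z, A₂, h1, h2, h3⟩ := cross X₂ (m - X₁.sum) (by omega)
  have hV : V u B = (X₁ + A₁) + z ::ₘ (A₂ + X₃) := by
    rw [hX, h1, ← Multiset.singleton_add, ← Multiset.singleton_add]
    abel
  have hz : z ∈ V u B := by
    rw [hV]
    exact Multiset.mem_add.mpr (Or.inr (Multiset.mem_cons_self _ _))
  refine ⟨A₁, z, A₂, h1, ?_, ?_, (mem_V u h0 hz).2, hV⟩
  · rw [Multiset.sum_add]
    by_contra hcon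
    have h4 : (X₁ + A₁).sum = m := by rw [Multiset.sum_add]; omega
    have h5 := sub_ne u h hB (X := X₁ + A₁) (by rw [hV]; exact Multiset.le_add_right _ _)
      (by rw [h4]) (by
        intro h6
        rw [h6, Multiset.sum_zero] at h4
        exact NeZero.ne m h4.symm)
    rw [hV] at h5
    have := congrArg card h5
    simp only [Multiset.card_add, Multiset.card_cons] at this
    omega
  · rw [Multiset.sum_add]
    omega

lemma part3 {n a b c : ℕ} (h : a + b + c = 2 * n + 1) (hbig : n + 1 ≤ a ∨ n + 1 ≤ b ∨ n + 1 ≤ c) :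
    ∃ C₁ C₂ C₃ : Multiset ℕ, (n + 1) ::ₘ replicate n 1 = C₁ + C₂ + C₃ ∧ C₁.sum = a ∧ C₂.sum = b ∧
      C₃.sum = c := by
  rcases hbig with hb | hb | hb
  · refine ⟨(n + 1) ::ₘ replicate (a - (n + 1)) 1, replicate b 1, replicate c 1, ?_, ?_, ?_, ?_⟩
    · rw [Multiset.cons_add, Multiset.cons_add, ← Multiset.replicate_add, ← Multiset.replicate_add]
      congr 2
      omega
    · simp; omega
    · simp
    · simp
  · refine ⟨replicate a 1, (n + 1) ::ₘ replicate (b - (n + 1)) 1, replicate c 1, ?_, ?_, ?_, ?_⟩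
    · rw [Multiset.add_cons, Multiset.cons_add, ← Multiset.replicate_add, ← Multiset.replicate_add]
      congr 2
      omega
    · simp
    · simp; omega
    · simp
  · refine ⟨replicate a 1, replicate b 1, (n + 1) ::ₘ replicate (c - (n + 1)) 1, ?_, ?_, ?_, ?_⟩
    · rw [Multiset.add_cons, ← Multiset.replicate_add, ← Multiset.replicate_add]
      congr 2
      omega
    · simp
    · simp
    · simp; omega

lemma core {n : ℕ} (hm : m = 2 * n + 1) (u : (ZMod m)ˣ) {Z₁ B : Multiset (ZMod m)}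
    (hopt : Opt (B ::ₘ {Z₁})) (hZ₁ : V u Z₁ = (n + 1) ::ₘ replicate n 1) {A₁ A₂ : Multiset ℕ} {z : ℕ}
    (hB : V u B = A₁ + z ::ₘ A₂) (hs : A₁.sum < m) (hz : m < A₁.sum + z) (hzm : z < m) :
    n + 1 ≤ z := by
  by_contra hcon
  push Not at hcon
  obtain ⟨C₁, C₂, C₃, h1, h2, h3, h4⟩ := part3 (n := n) (a := m - A₁.sum) (b := A₁.sum + z - m)
    (c := m - z) (by omega) (by right; right; omega)
  have := no_split u hopt hB hs hz C₁ C₂ C₃ 0 (by
    rw [Multiset.sum_singleton, hZ₁, h1, Multiset.sum_zero, add_zero]) (by omega) (by omega)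
    (by omega) (by simp)
  simp at this

/-- small elements do not cross -/
lemma no_small {n : ℕ} (hm : m = 2 * n + 1) (u : (ZMod m)ˣ) {Z₁ B : Multiset (ZMod m)}
    (hopt : Opt (B ::ₘ {Z₁})) (h0 : (0 : ZMod m) ∉ B)
    (hZ₁ : V u Z₁ = (n + 1) ::ₘ replicate n 1) (X₁ X₂ X₃ : Multiset ℕ)
    (hX : V u B = X₁ + X₂ + X₃) (hX₁ : X₁.sum ≤ m) (hX₂ : ∀ x ∈ X₂, x ≤ n) :
    (X₁ + X₂).sum ≤ m := by
  by_contra hcon
  push Not at hcon
  obtain ⟨A₁, z, A₂, h1, h2, h3, h4, h5⟩ := cross3 u hopt (Multiset.mem_cons_self _ _) h0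
    X₁ X₂ X₃ hX hX₁ hcon
  have h6 := core hm u hopt hZ₁ h5 h2 h3 h4
  have := hX₂ z (by rw [h1]; exact Multiset.mem_add.mpr (Or.inr (Multiset.mem_cons_self _ _)))
  omega

lemma V_two (u w : (ZMod m)ˣ) (hw : (w : ZMod m) = 2 * (u : ZMod m)) (Z : Multiset (ZMod m)) :
    V w Z = (V u Z).map (fun x => 2 * x % m) := by
  unfold V
  rw [Multiset.map_map]
  apply Multiset.map_congr rfl
  intro a _
  simp only [Function.comp_apply]
  have h1 : (w : ZMod m) * a = ((2 * ((u : ZMod m) * a).val : ℕ) : ZMod m) := by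
    push_cast
    rw [ZMod.natCast_zmod_val, hw]
    ring
  rw [h1, ZMod.val_natCast]

lemma V_two_X₀ {n : ℕ} (hn : 1 ≤ n) (hm : m = 2 * n + 1) :
    ((n + 1) ::ₘ replicate n 1).map (fun x => 2 * x % m) = 1 ::ₘ replicate n 2 := by
  rw [Multiset.map_cons, Multiset.map_replicate]
  have h1 : 2 * (n + 1) % m = 1 := by
    have : 2 * (n + 1) = m + 1 := by omega
    rw [this, Nat.add_mod_left, Nat.mod_eq_of_lt (by omega)]
  have h2 : 2 * 1 % m = 2 := Nat.mod_eq_of_lt (by omega)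
  rw [h1, h2]

lemma map_small {n : ℕ} (hm : m = 2 * n + 1) {X : Multiset ℕ} (hX : ∀ x ∈ X, x ≤ n) :
    (X.map (fun x => 2 * x % m)).sum = 2 * X.sum := by
  induction X using Multiset.induction_on with
  | empty => simp
  | cons x X ih =>
    have := hX x (Multiset.mem_cons_self _ _)
    rw [Multiset.map_cons, Multiset.sum_cons, ih (fun y hy => hX y (Multiset.mem_cons_of_mem hy)),
      Multiset.sum_cons, Nat.mod_eq_of_lt (by omega)]
    ring

/-- Claim 1: no block is bad for both units -/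
lemma claim1 {n : ℕ} (hn : 1 ≤ n) (hm : m = 2 * n + 1) (u w : (ZMod m)ˣ)
    (hw : (w : ZMod m) = 2 * (u : ZMod m)) {Z₁ B : Multiset (ZMod m)} (hopt : Opt (B ::ₘ {Z₁}))
    (h0 : (0 : ZMod m) ∉ B) (hZ₁ : V u Z₁ = (n + 1) ::ₘ replicate n 1)
    (hb1 : m < (V u B).sum) (hb2 : m < (V w B).sum) : False := by
  classical
  set Sm := (V u B).filter (fun x => x ≤ n) with hSm
  set La := (V u B).filter (fun x => ¬ (x ≤ n)) with hLa
  have hadd : Sm + La = V u B := Multiset.filter_add_not _ _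
  have hSm' : ∀ x ∈ Sm, x ≤ n := fun x hx => by
    rw [hSm, Multiset.mem_filter] at hx
    exact hx.2
  have hLa' : ∀ x ∈ La, n + 1 ≤ x ∧ x < m := fun x hx => by
    rw [hLa, Multiset.mem_filter] at hx
    have := (mem_V u h0 hx.1).2
    omega
  have hLa0 : La ≠ 0 := by
    intro h
    have h1 := no_small hm u hopt h0 hZ₁ 0 Sm 0 (by
      rw [zero_add, add_zero, ← hadd, h, add_zero]) (by simp) hSm'
    rw [zero_add] at h1
    rw [← hadd, h, add_zero] at hb1
    omega
  obtain ⟨z₀, hz₀⟩ := Multiset.exists_mem_of_ne_zero hLa0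
  obtain ⟨La', hLa''⟩ := Multiset.exists_cons_of_mem hz₀
  have hz₀' := hLa' z₀ hz₀
  have h1 := no_small hm u hopt h0 hZ₁ {z₀} Sm La' (by
    rw [← hadd, hLa'', ← Multiset.singleton_add]
    abel) (by rw [Multiset.sum_singleton]; omega) hSm'
  rw [Multiset.sum_add, Multiset.sum_singleton] at h1
  have hsm := map_small hm hSm'
  obtain ⟨A₁, z, A₂, h2, h3, h4, h5, h6⟩ := cross3 w hopt (Multiset.mem_cons_self _ _) h0
    (Sm.map (fun x => 2 * x % m)) (La.map (fun x => 2 * x % m)) 0 (by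
      rw [add_zero, ← Multiset.map_add, hadd, V_two u w hw]) (by rw [hsm]; omega) (by
      rw [← Multiset.map_add, hadd, ← V_two u w hw]; exact hb2)
  have hzmem : z ∈ La.map (fun x => 2 * x % m) := by
    rw [h2]; exact Multiset.mem_add.mpr (Or.inr (Multiset.mem_cons_self _ _))
  obtain ⟨x, hx, hxz⟩ := Multiset.mem_map.mp hzmem
  have hx' := hLa' x hx
  have hzx : z = 2 * x - m := by
    rw [← hxz]
    have : 2 * x = m + (2 * x - m) := by omega
    show 2 * x % m = 2 * x - m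
    conv_lhs => rw [this]
    rw [Nat.add_mod_left, Nat.mod_eq_of_lt (by omega)]
  set s := (Sm.map (fun x => 2 * x % m) + A₁).sum with hs
  have hVZ : V w Z₁ = 1 ::ₘ replicate n 2 := by
    rw [V_two u w hw, hZ₁, V_two_X₀ hn hm]
  rcases Nat.even_or_odd' (m - s) with ⟨a, ha | ha⟩
  · -- `m - s` even
    have hfin := no_split w hopt h6 h3 h4 (replicate a 2)
      (1 ::ₘ replicate ((s + z - m) / 2) 2) (replicate ((m - z) / 2) 2) 0 (by
        rw [Multiset.sum_singleton, hVZ, Multiset.sum_zero, add_zero, Multiset.add_cons,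
          Multiset.cons_add, ← Multiset.replicate_add, ← Multiset.replicate_add]
        congr 2
        omega) (by
        rw [Multiset.sum_replicate, smul_eq_mul, ← hs]; omega) (by
        rw [Multiset.sum_cons, Multiset.sum_replicate, smul_eq_mul, ← hs]; omega) (by
        rw [Multiset.sum_replicate, smul_eq_mul]; omega) (by simp)
    simp at hfin
  · have hfin := no_split w hopt h6 h3 h4 (1 ::ₘ replicate a 2)
      (replicate ((s + z - m) / 2) 2) (replicate ((m - z) / 2) 2) 0 (by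
        rw [Multiset.sum_singleton, hVZ, Multiset.sum_zero, add_zero, Multiset.cons_add,
          Multiset.cons_add, ← Multiset.replicate_add, ← Multiset.replicate_add]
        congr 2
        omega) (by
        rw [Multiset.sum_cons, Multiset.sum_replicate, smul_eq_mul, ← hs]; omega) (by
        rw [Multiset.sum_replicate, smul_eq_mul, ← hs]; omega) (by
        rw [Multiset.sum_replicate, smul_eq_mul]; omega) (by simp)
    simp at hfin

/-- Claim 2: two blocks which are bad for one unit each do not exist -/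
lemma claim2 {n : ℕ} (hm : m = 2 * n + 1) (u w : (ZMod m)ˣ)
    (hw : (w : ZMod m) = 2 * (u : ZMod m)) {Z₁ Z₂ Z₃ B B' : Multiset (ZMod m)}
    (hopt : Opt (B ::ₘ Z₁ ::ₘ Z₂ ::ₘ Z₃ ::ₘ {B'}))
    (h0 : (0 : ZMod m) ∉ B) (h0' : (0 : ZMod m) ∉ B')
    (hZ₁ : V u Z₁ = (n + 1) ::ₘ replicate n 1) (hZ₂ : V u Z₂ = (n + 1) ::ₘ replicate n 1)
    (hZ₃ : V u Z₃ = (n + 1) ::ₘ replicate n 1)
    (hb1 : m < (V u B).sum) (hg : (V u B').sum = m) (hb2 : m < (V w B').sum) : False := by
  classical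
  have hmpos := NeZero.pos m
  have hsmall : ∀ x ∈ V u B', x ≤ n := by
    intro x hx
    by_contra hcon
    push Not at hcon
    have hxm := (mem_V u h0' hx).2
    obtain ⟨T, hT⟩ := Multiset.exists_cons_of_mem hx
    rw [hT, Multiset.sum_cons] at hg
    have hTs : ∀ y ∈ T, y ≤ n := by
      intro y hy
      have := Multiset.le_sum_of_mem hy
      omega
    have h1 := map_small hm hTs
    rw [V_two u w hw, hT, Multiset.map_cons, Multiset.sum_cons, h1] at hb2
    have h2 : 2 * x % m = 2 * x - m := by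
      have : 2 * x = m + (2 * x - m) := by omega
      conv_lhs => rw [this]
      rw [Nat.add_mod_left, Nat.mod_eq_of_lt (by omega)]
    rw [h2] at hb2
    omega
  obtain ⟨A₁, z, A₂, -, h2, h3, h4, h5⟩ := cross3 u hopt (Multiset.mem_cons_self _ _) h0 0 (V u B) 0
    (by rw [zero_add, add_zero]) (by simp) (by rw [zero_add]; exact hb1)
  rw [zero_add] at h2 h3 h5
  obtain ⟨D₁, p, D₂, hD, hD1, hD2⟩ := cross (V u B') n (by omega)
  have hp : p ≤ n := hsmall p (by
    rw [hD]; exact Multiset.mem_add.mpr (Or.inr (Multiset.mem_cons_self _ _)))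
  have hDs : D₁.sum + (p + D₂.sum) = m := by
    rw [← hg, hD, Multiset.sum_add, Multiset.sum_cons]
  have key : replicate n 1 + replicate n 1 + replicate n 1 = replicate (m - A₁.sum) 1 +
      replicate (A₁.sum + z - m) 1 + replicate (m - z) 1 + replicate (n - D₁.sum) 1 +
      replicate (n - p) 1 + replicate (n - D₂.sum) 1 := by
    simp only [← Multiset.replicate_add]
    congr 1
    omega
  have hfin := no_split u hopt h5 h2 h3 (replicate (m - A₁.sum) 1)
    (replicate (A₁.sum + z - m) 1) (replicate (m - z) 1)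
    (((n + 1) ::ₘ (D₁ + replicate (n - D₁.sum) 1)) ::ₘ
      ((n + 1) ::ₘ p ::ₘ replicate (n - p) 1) ::ₘ
      {((n + 1) ::ₘ (D₂ + replicate (n - D₂.sum) 1))}) (by
      rw [Multiset.sum_cons, Multiset.sum_cons, Multiset.sum_cons, Multiset.sum_singleton, V_add,
        V_add, V_add, hZ₁, hZ₂, hZ₃, hD, Multiset.sum_cons, Multiset.sum_cons,
        Multiset.sum_singleton]
      simp only [← Multiset.singleton_add]
      calc {n + 1} + replicate n 1 + ({n + 1} + replicate n 1 +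
            ({n + 1} + replicate n 1 + (D₁ + ({p} + D₂)))) =
          (replicate n 1 + replicate n 1 + replicate n 1) +
            ({n + 1} + {n + 1} + {n + 1} + D₁ + {p} + D₂) := by abel
        _ = _ := by rw [key]; abel) (by
      rw [Multiset.sum_replicate, smul_eq_mul, mul_one]; omega) (by
      rw [Multiset.sum_replicate, smul_eq_mul, mul_one]; omega) (by
      rw [Multiset.sum_replicate, smul_eq_mul, mul_one]; omega) (by
      intro r hr
      rcases Multiset.mem_cons.mp hr with rfl | hr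
      · refine ⟨Multiset.cons_ne_zero, ?_⟩
        rw [Multiset.sum_cons, Multiset.sum_add, Multiset.sum_replicate, smul_eq_mul, mul_one]
        have : n + 1 + (D₁.sum + (n - D₁.sum)) = m := by omega
        rw [this]
      rcases Multiset.mem_cons.mp hr with rfl | hr
      · refine ⟨Multiset.cons_ne_zero, ?_⟩
        rw [Multiset.sum_cons, Multiset.sum_cons, Multiset.sum_replicate, smul_eq_mul, mul_one]
        have : n + 1 + (p + (n - p)) = m := by omega
        rw [this]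
      · rw [Multiset.mem_singleton] at hr
        subst hr
        refine ⟨Multiset.cons_ne_zero, ?_⟩
        rw [Multiset.sum_cons, Multiset.sum_add, Multiset.sum_replicate, smul_eq_mul, mul_one]
        have : n + 1 + (D₂.sum + (n - D₂.sum)) = m := by omega
        rw [this])
  simp at hfin

/-- the theorem without long blocks -/
theorem main_short {W : Multiset (ZMod m)} {P : Multiset (Multiset (ZMod m))} (hP : Opt P)
    (hW : P.sum = W) (h0 : (0 : ZMod m) ∉ W) (hcount : card P * m + 3 ≤ 2 * card W) (hm3 : 3 ≤ m)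
    (hshort : Short W (card P)) : ∃ u : (ZMod m)ˣ, (V u W).sum = card P * m := by
  classical
  obtain ⟨⟨n, hm⟩, Z₁, Z₂, Z₃, R, hPR, hc1, hc2, hc3, -⟩ := three_blocks hP hW hcount hm3 hshort
  have hn : 1 ≤ n := by omega
  have hP0 : ∀ Z ∈ P, (0 : ZMod m) ∉ Z := notMem_of_sum (by rw [hW]; exact h0)
  obtain ⟨u, hu⟩ := shape hn hm (Z₁ := Z₁) (Z₂ := Z₂) (R := Z₃ ::ₘ R) (by rw [← hPR]; exact hP) (by
    have : card (Z₃ ::ₘ R) + 2 = card P := by rw [hPR]; simp
    rw [this, ← hPR, hW]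
    exact hshort) (by omega) (by omega) (by rw [← hPR]; exact hP0)
  rw [← hPR] at hu
  have m1 : Z₁ ∈ P := by rw [hPR]; exact Multiset.mem_cons_self _ _
  have m2 : Z₂ ∈ P := by rw [hPR]; exact Multiset.mem_cons_of_mem (Multiset.mem_cons_self _ _)
  have m3 : Z₃ ∈ P := by
    rw [hPR]
    exact Multiset.mem_cons_of_mem (Multiset.mem_cons_of_mem (Multiset.mem_cons_self _ _))
  have v1 := hu Z₁ m1 (by omega)
  have v2 := hu Z₂ m2 (by omega)
  have v3 := hu Z₃ m3 (by omega)
  have hX₀ : ((n + 1) ::ₘ replicate n 1).sum = m := by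
    rw [Multiset.sum_cons, Multiset.sum_replicate, smul_eq_mul, mul_one]; omega
  by_cases hall : ∀ Z ∈ R, (V u Z).sum = m
  · refine ⟨u, ?_⟩
    rw [← hW]
    apply V_sum_eq
    intro Z hZ
    rw [hPR] at hZ
    rcases Multiset.mem_cons.mp hZ with rfl | hZ
    · rw [v1, hX₀]
    rcases Multiset.mem_cons.mp hZ with rfl | hZ
    · rw [v2, hX₀]
    rcases Multiset.mem_cons.mp hZ with rfl | hZ
    · rw [v3, hX₀]
    exact hall Z hZ
  push Not at hall
  obtain ⟨B, hBR, hB⟩ := hall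
  have hBP : B ∈ P := by
    rw [hPR]
    exact Multiset.mem_cons_of_mem (Multiset.mem_cons_of_mem (Multiset.mem_cons_of_mem hBR))
  have hbad : ∀ (v : (ZMod m)ˣ) (Z : Multiset (ZMod m)), Z ∈ P → (V v Z).sum ≠ m →
      m < (V v Z).sum := by
    intro v Z hZ hne
    have := V_sum_ge v (hP0 Z hZ) (hP.1 Z hZ).1 (hP.1 Z hZ).2
    omega
  have hb1 := hbad u B hBP hB
  -- the unit `2 u`
  have h2u : IsUnit (2 : ZMod m) := by
    have := (ZMod.isUnit_iff_coprime 2 m).mpr (by
      rw [Nat.coprime_two_left]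
      exact ⟨n, hm⟩)
    simpa using this
  obtain ⟨t, ht⟩ := h2u
  have hw : ((t * u : (ZMod m)ˣ) : ZMod m) = 2 * (u : ZMod m) := by
    rw [Units.val_mul, ht]
  have hX₀' : ∀ Z, V u Z = (n + 1) ::ₘ replicate n 1 → (V (t * u) Z).sum = m := by
    intro Z hZ
    rw [V_two u (t * u) hw, hZ, V_two_X₀ hn hm, Multiset.sum_cons, Multiset.sum_replicate,
      smul_eq_mul]
    omega
  have hopt1 : ∀ B ∈ R, Opt (B ::ₘ {Z₁}) := by
    intro B hBR
    obtain ⟨R', hR'⟩ := Multiset.exists_cons_of_mem hBR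
    apply hP.mono
    rw [hPR, hR']
    have e : Z₁ ::ₘ Z₂ ::ₘ Z₃ ::ₘ B ::ₘ R' = (B ::ₘ {Z₁}) + (Z₂ ::ₘ Z₃ ::ₘ R') := by
      simp only [← Multiset.singleton_add]
      abel
    rw [e]
    exact Multiset.le_add_right _ _
  refine ⟨t * u, ?_⟩
  rw [← hW]
  apply V_sum_eq
  intro Z hZ
  rw [hPR] at hZ
  rcases Multiset.mem_cons.mp hZ with rfl | hZ
  · exact hX₀' _ v1
  rcases Multiset.mem_cons.mp hZ with rfl | hZ
  · exact hX₀' _ v2
  rcases Multiset.mem_cons.mp hZ with rfl | hZ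
  · exact hX₀' _ v3
  have hZP : Z ∈ P := by
    rw [hPR]
    exact Multiset.mem_cons_of_mem (Multiset.mem_cons_of_mem (Multiset.mem_cons_of_mem hZ))
  by_contra hne
  have hb2 := hbad (t * u) Z hZP hne
  obtain ⟨R', hR'⟩ := Multiset.exists_cons_of_mem hBR
  rw [hR'] at hZ
  rcases Multiset.mem_cons.mp hZ with rfl | hZR'
  · exact claim1 hn hm u (t * u) hw (hopt1 Z hBR) (hP0 Z hZP) v1 hb1 hb2
  · have hZR : Z ∈ R := by rw [hR']; exact Multiset.mem_cons_of_mem hZR'
    have hg : (V u Z).sum = m := by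
      by_contra hne'
      exact claim1 hn hm u (t * u) hw (hopt1 Z hZR) (hP0 Z hZP) v1 (hbad u Z hZP hne') hb2
    obtain ⟨R'', hR''⟩ := Multiset.exists_cons_of_mem hZR'
    refine claim2 hm u (t * u) hw (Z₁ := Z₁) (Z₂ := Z₂) (Z₃ := Z₃) (B := B) (B' := Z) ?_
      (hP0 B hBP) (hP0 Z hZP) v1 v2 v3 hb1 hg hb2
    apply hP.mono
    rw [hPR, hR', hR'']
    have e : Z₁ ::ₘ Z₂ ::ₘ Z₃ ::ₘ B ::ₘ Z ::ₘ R'' = (B ::ₘ Z₁ ::ₘ Z₂ ::ₘ Z₃ ::ₘ {Z}) + R'' := by
      simp only [← Multiset.singleton_add]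
      abel
    rw [e]
    exact Multiset.le_add_right _ _

end Pool.Agent.N998.ZS
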