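import Pool.Agent.N998.ZS.Fac

/-!
Packing lemmas for multisets of natural numbers with many ones.
-/

namespace Pool.Agent.N998.ZS

open Multiset

/-- Packing: with enough ones every system of capacities can be filled. -/
lemma pack {k : ℕ} (n : ℕ) (Y : Multiset ℕ) : ∀ (c : Fin (k + 1) → ℕ), ∑ i, c i = Y.sum + n →
    (∀ y ∈ Y, k * y ≤ n + k) → (∀ y ∈ Y, 1 ≤ y) →
    ∃ B : Fin (k + 1) → Multiset ℕ, ∑ i, B i = Y + replicate n 1 ∧ ∀ i, (B i).sum = c i := by
  induction Y using Multiset.induction_on with
  | empty =>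
    intro c hc _ _
    refine ⟨fun i => replicate (c i) 1, ?_, ?_⟩
    · have h1 : ∀ s : Finset (Fin (k + 1)), ∑ i ∈ s, replicate (c i) 1 = replicate (∑ i ∈ s, c i) 1 := by
        intro s
        induction s using Finset.induction_on with
        | empty => simp
        | insert a s ha ih => rw [Finset.sum_insert ha, Finset.sum_insert ha, ih, ← Multiset.replicate_add]
      rw [h1, hc]
      simp
    · intro i
      simp
  | cons y Y ih =>
    intro c hc hy h1
    rw [Multiset.sum_cons] at hc
    have hy1 : 1 ≤ y := h1 y (Multiset.mem_cons_self _ _)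
    have hyk : k * y ≤ n + k := hy y (Multiset.mem_cons_self _ _)
    obtain ⟨i, hi⟩ : ∃ i, y ≤ c i := by
      by_contra hcon
      push Not at hcon
      obtain ⟨y', rfl⟩ := Nat.exists_eq_add_of_le hy1
      have h2 : ∑ i, c i ≤ (k + 1) * y' := by
        have := Finset.sum_le_card_nsmul Finset.univ c y' (fun i _ => by have := hcon i; omega)
        rwa [Finset.card_univ, Fintype.card_fin, smul_eq_mul] at this
      rw [hc, add_mul, one_mul] at h2
      rw [mul_add, mul_one] at hyk
      generalize k * y' = t at h2 hyk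
      omega
    obtain ⟨B, hB, hB2⟩ := ih (Function.update c i (c i - y)) (by
      rw [Finset.sum_update_of_mem (Finset.mem_univ i)]
      rw [← Finset.add_sum_erase _ _ (Finset.mem_univ i), Finset.erase_eq] at hc
      omega) (fun z hz => hy z (Multiset.mem_cons_of_mem hz))
      (fun z hz => h1 z (Multiset.mem_cons_of_mem hz))
    refine ⟨Function.update B i (y ::ₘ B i), ?_, ?_⟩
    · rw [Finset.sum_update_of_mem (Finset.mem_univ i), Multiset.cons_add]
      rw [← Finset.add_sum_erase _ _ (Finset.mem_univ i), Finset.erase_eq] at hB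
      rw [hB, Multiset.cons_add]
    · intro j
      have := hB2 j
      by_cases hj : j = i
      · subst hj
        rw [Function.update_self] at this ⊢
        rw [Multiset.sum_cons, this]
        omega
      · rw [Function.update_of_ne hj] at this ⊢
        exact this

/-- large submultisets with given sum -/
lemma pick (n d : ℕ) (Y : Multiset ℕ) (hY : ∀ y ∈ Y, y ≤ n ∧ y + d ≤ n + 2) (z : ℕ) (hz : n < z)
    (hz2 : z ≤ n + Y.sum) : ∃ U ≤ replicate n 1 + Y, U.sum = z ∧ d ≤ card U := by
  induction Y using Multiset.induction_on with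
  | empty => simp at hz2; omega
  | cons y Y ih =>
    rw [Multiset.sum_cons] at hz2
    obtain ⟨hy1, hy2⟩ := hY y (Multiset.mem_cons_self _ _)
    by_cases h : z ≤ n + Y.sum
    · obtain ⟨U, hU, h1, h2⟩ := ih (fun x hx => hY x (Multiset.mem_cons_of_mem hx)) h
      refine ⟨U, hU.trans ?_, h1, h2⟩
      exact Multiset.add_le_add_left (Multiset.le_cons_self _ _)
    · push Not at h
      refine ⟨replicate (z - (y + Y.sum)) 1 + (y ::ₘ Y), ?_, ?_, ?_⟩
      · apply Multiset.add_le_add_right
        exact Multiset.replicate_le_replicate 1 |>.mpr (by omega)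
      · rw [Multiset.sum_add, Multiset.sum_replicate, Multiset.sum_cons, smul_eq_mul]
        omega
      · rw [Multiset.card_add, Multiset.card_replicate, Multiset.card_cons]
        omega

/-- the crossing element -/
lemma cross (X : Multiset ℕ) (t : ℕ) (h : t < X.sum) :
    ∃ A z B, X = A + z ::ₘ B ∧ A.sum ≤ t ∧ t < A.sum + z := by
  induction X using Multiset.induction_on with
  | empty => simp at h
  | cons x X ih =>
    by_cases h1 : t < X.sum
    · obtain ⟨A, z, B, rfl, h2, h3⟩ := ih h1
      exact ⟨A, z, x ::ₘ B, by rw [Multiset.cons_swap, Multiset.add_cons, Multiset.add_cons, Multiset.add_cons], h2, h3⟩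
    · push Not at h1
      rw [Multiset.sum_cons] at h
      exact ⟨X, x, 0, by rw [Multiset.add_cons, add_zero], h1, by omega⟩

/-- the ones and the other elements -/
lemma ones_split (X : Multiset ℕ) (hX : ∀ x ∈ X, 1 ≤ x) :
    ∃ n Y, X = replicate n 1 + Y ∧ (∀ y ∈ Y, 2 ≤ y) ∧ Y ≤ X := by
  classical
  refine ⟨count 1 X, X.filter (fun x => ¬ (x = 1)), ?_, ?_, Multiset.filter_le _ _⟩
  · rw [← Multiset.filter_eq' X 1]
    exact (Multiset.filter_add_not _ _).symm
  · intro y hy
    rw [Multiset.mem_filter] at hy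
    have := hX y hy.1
    omega

/-- `sum ≥ 2 card` for multisets of numbers `≥ 2`, with a member or two or three removed -/
lemma two_card_le (Y : Multiset ℕ) (hY : ∀ y ∈ Y, 2 ≤ y) : 2 * card Y ≤ Y.sum := by
  have := Multiset.card_nsmul_le_sum hY
  rw [smul_eq_mul] at this
  omega

lemma card_le_sum (Y : Multiset ℕ) (hY : ∀ y ∈ Y, 1 ≤ y) : card Y ≤ Y.sum := by
  have := Multiset.card_nsmul_le_sum hY
  rw [smul_eq_mul] at this
  omega

end Pool.Agent.N998.ZS
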