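import Mathlib

/-!
Long zero-sum free sequences in finite cyclic groups (theorem of Savchev and Chen), with a short
proof.
-/

namespace Pool.Agent.N998.ZS

open Finset

variable {G : Type*} [AddCommGroup G] [DecidableEq G]

/-- the set of the sums of the submultisets (with `0`) -/
def Sub (S : Multiset G) : Finset G := (S.powerset.map Multiset.sum).toFinset

omit [DecidableEq G] in
/-- zero-sum free -/
def ZF (S : Multiset G) : Prop := ∀ T ≤ S, T ≠ 0 → T.sum ≠ 0

lemma mem_Sub {S : Multiset G} {x : G} : x ∈ Sub S ↔ ∃ T ≤ S, T.sum = x := by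
  unfold Sub
  rw [Multiset.mem_toFinset, Multiset.mem_map]
  simp only [Multiset.mem_powerset]

lemma zero_mem_Sub (S : Multiset G) : (0 : G) ∈ Sub S :=
  mem_Sub.mpr ⟨0, Multiset.zero_le _, rfl⟩

lemma sum_mem_Sub (S : Multiset G) : S.sum ∈ Sub S := mem_Sub.mpr ⟨S, le_rfl, rfl⟩

lemma Sub_mono {S T : Multiset G} (h : S ≤ T) : Sub S ⊆ Sub T := by
  intro x hx
  obtain ⟨U, hU, rfl⟩ := mem_Sub.mp hx
  exact mem_Sub.mpr ⟨U, hU.trans h, rfl⟩

lemma Sub_cons (a : G) (S : Multiset G) : Sub (a ::ₘ S) = Sub S ∪ (Sub S).image (fun x => a + x) := by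
  ext x
  rw [mem_union, mem_image, mem_Sub]
  constructor
  · rintro ⟨T, hT, rfl⟩
    by_cases ha : a ∈ T
    · right
      obtain ⟨U, rfl⟩ := Multiset.exists_cons_of_mem ha
      exact ⟨U.sum, mem_Sub.mpr ⟨U, (Multiset.cons_le_cons_iff a).mp hT, rfl⟩,
        (Multiset.sum_cons a U).symm⟩
    · left
      exact mem_Sub.mpr ⟨T, (Multiset.le_cons_of_notMem ha).mp hT, rfl⟩
  · rintro (h | ⟨y, hy, rfl⟩)
    · obtain ⟨T, hT, rfl⟩ := mem_Sub.mp h
      exact ⟨T, hT.trans (Multiset.le_cons_self _ _), rfl⟩
    · obtain ⟨T, hT, rfl⟩ := mem_Sub.mp hy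
      exact ⟨a ::ₘ T, Multiset.cons_le_cons a hT, Multiset.sum_cons a T⟩

omit [DecidableEq G] in
lemma ZF.mono {S T : Multiset G} (h : ZF T) (hST : S ≤ T) : ZF S :=
  fun U hU hU0 => h U (hU.trans hST) hU0

/-- a sum of a submultiset of `S` is not the negative of an element outside -/
lemma ZF.add_ne {a : G} {S : Multiset G} (h : ZF (a ::ₘ S)) {x : G} (hx : x ∈ Sub S) :
    a + x ≠ 0 := by
  obtain ⟨T, hT, rfl⟩ := mem_Sub.mp hx
  have := h (a ::ₘ T) (Multiset.cons_le_cons a hT) (Multiset.cons_ne_zero)
  rwa [Multiset.sum_cons] at this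

lemma card_Sub_cons_ge {a : G} {S : Multiset G} (h : ZF (a ::ₘ S)) :
    (Sub S).card + 1 ≤ (Sub (a ::ₘ S)).card := by
  have h1 : (Sub S).image (fun x => a + x) ⊆ (Sub (a ::ₘ S)).erase 0 := by
    intro y hy
    obtain ⟨x, hx, rfl⟩ := mem_image.mp hy
    rw [mem_erase]
    refine ⟨h.add_ne hx, ?_⟩
    rw [Sub_cons]
    exact mem_union_right _ (mem_image.mpr ⟨x, hx, rfl⟩)
  have h2 := card_le_card h1
  rw [card_image_of_injective _ (add_right_injective a), card_erase_of_mem (zero_mem_Sub _)] at h2
  have := card_pos.mpr ⟨_, zero_mem_Sub (a ::ₘ S)⟩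
  omega

/-- If all elements enlarge the set of the sums by one then they are all equal. -/
lemma all_eq {S : Multiset G} (hS : ZF S)
    (h : ∀ s ∈ S, (Sub S).card = (Sub (S.erase s)).card + 1) : ∀ a ∈ S, ∀ b ∈ S, a = b := by
  have hne : ∀ a ∈ S, S.sum ≠ 0 := by
    intro a ha
    exact hS S le_rfl (by rintro rfl; exact absurd ha (Multiset.notMem_zero a))
  -- the two descriptions of the sums of `S.erase s`
  have h1 : ∀ s ∈ S, Sub (S.erase s) = (Sub S).erase S.sum := by
    intro s hs
    apply eq_of_subset_of_card_le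
    · intro x hx
      rw [mem_erase]
      refine ⟨?_, Sub_mono (Multiset.erase_le s S) hx⟩
      rintro rfl
      obtain ⟨T, hT, hT2⟩ := mem_Sub.mp hx
      have hle : T ≤ S := hT.trans (Multiset.erase_le s S)
      have h2 : (S - T).sum = 0 := by
        have h3 : (S - T).sum + T.sum = S.sum := by
          rw [← Multiset.sum_add, Multiset.sub_add_cancel hle]
        rw [hT2] at h3
        simpa using h3
      refine hS (S - T) (Multiset.sub_le_self S T) ?_ h2
      intro h3
      have h4 : S ≤ T := tsub_eq_zero_iff_le.mp h3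
      have h5 := Multiset.card_le_card (h4.trans hT)
      rw [Multiset.card_erase_of_mem hs] at h5
      have := Multiset.card_pos_iff_exists_mem.mpr ⟨s, hs⟩
      simp only [Nat.pred_eq_sub_one] at h5
      omega
    · rw [card_erase_of_mem (sum_mem_Sub S)]
      have := h s hs
      omega
  have h2 : ∀ s ∈ S, (Sub (S.erase s)).image (fun x => s + x) = (Sub S).erase 0 := by
    intro s hs
    have hc : s ::ₘ S.erase s = S := Multiset.cons_erase hs
    apply eq_of_subset_of_card_le
    · intro y hy
      obtain ⟨x, hx, rfl⟩ := mem_image.mp hy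
      rw [mem_erase]
      refine ⟨ZF.add_ne (by rwa [hc]) hx, ?_⟩
      have : s + x ∈ Sub (s ::ₘ S.erase s) := by
        rw [Sub_cons]; exact mem_union_right _ (mem_image.mpr ⟨x, hx, rfl⟩)
      rwa [hc] at this
    · rw [card_image_of_injective _ (add_right_injective s), card_erase_of_mem (zero_mem_Sub S)]
      have := h s hs
      omega
  intro a ha b hb
  by_contra hab
  have hd : a - b ≠ 0 := sub_ne_zero.mpr hab
  -- membership in `C = Sub S \ {σ}` and `E = Sub S \ {0}`
  have key : ∀ s ∈ S, ∀ x, x ∈ (Sub S).erase S.sum ↔ s + x ∈ (Sub S).erase 0 := by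
    intro s hs x
    rw [← h2 s hs, h1 s hs, mem_image]
    constructor
    · intro hx; exact ⟨x, hx, rfl⟩
    · rintro ⟨y, hy, hxy⟩
      rwa [← add_left_cancel hxy]
  have h0C : (0 : G) ∈ (Sub S).erase S.sum :=
    mem_erase.mpr ⟨(hne a ha).symm, zero_mem_Sub S⟩
  have hdC : a - b ∈ (Sub S).erase S.sum := by
    rw [key b hb]
    have := (key a ha 0).mp h0C
    have e : b + (a - b) = a + 0 := by abel
    rwa [e]
  have hdE : a - b ∈ (Sub S).erase 0 := mem_erase.mpr ⟨hd, (mem_erase.mp hdC).2⟩
  have h3 : -b ∈ (Sub S).erase S.sum := by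
    rw [key a ha]
    have e : a + -b = a - b := by abel
    rwa [e]
  have h4 := (key b hb (-b)).mp h3
  rw [add_neg_cancel] at h4
  exact (mem_erase.mp h4).1 rfl

omit [DecidableEq G] in
lemma nsmul_inj_of {a : G} {N : ℕ} (h : ∀ k, 1 ≤ k → k ≤ N → k • a ≠ 0) :
    ∀ i ≤ N, ∀ j ≤ N, i • a = j • a → i = j := by
  intro i hi j hj hij
  rcases lt_trichotomy i j with hlt | heq | hlt
  · exfalso
    apply h (j - i) (by omega) (by omega)
    rw [sub_nsmul a hlt.le, hij]; simp
  · exact heq
  · exfalso
    apply h (i - j) (by omega) (by omega)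
    rw [sub_nsmul a hlt.le, hij]; simp

/-- The structure theorem: few subsums imply that the elements are small multiples of one element. -/
theorem structure_thm : ∀ (n : ℕ) (S : Multiset G), Multiset.card S = n → ZF S →
    (Sub S).card + 1 ≤ 2 * n →
    ∃ (a : G) (X : Multiset ℕ), S = X.map (fun x => x • a) ∧ (∀ x ∈ X, 1 ≤ x) ∧
      (∀ k, 1 ≤ k → k ≤ X.sum → k • a ≠ 0) ∧
      Sub S = (range (X.sum + 1)).image (fun k => k • a) := by
  intro n
  induction n with
  | zero =>
    intro S _ _ h
    omega
  | succ n ih =>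
    intro S hcard hS hle
    by_cases hall : ∀ s ∈ S, (Sub S).card = (Sub (S.erase s)).card + 1
    · have heq := all_eq hS hall
      obtain ⟨a, ha⟩ := Multiset.card_pos_iff_exists_mem.mp (by rw [hcard]; omega : 0 < Multiset.card S)
      have hrep : S = Multiset.replicate (n + 1) a := by
        rw [← hcard]
        exact Multiset.eq_replicate_card.mpr fun b hb => heq b hb a ha
      have hsum : (Multiset.replicate (n + 1) 1).sum = n + 1 := by
        rw [Multiset.sum_replicate, smul_eq_mul, mul_one]
      have hle' : ∀ k, k ≤ n + 1 → Multiset.replicate k a ≤ S := by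
        intro k hk
        rw [hrep]
        exact Multiset.replicate_le_replicate a |>.mpr hk
      refine ⟨a, Multiset.replicate (n + 1) 1, ?_, ?_, ?_, ?_⟩
      · rw [Multiset.map_replicate, one_nsmul, ← hrep]
      · intro x hx
        rw [Multiset.eq_of_mem_replicate hx]
      · intro k hk1 hk2
        rw [hsum] at hk2
        have := hS _ (hle' k hk2) (by
          intro h
          have := congrArg Multiset.card h
          rw [Multiset.card_replicate, Multiset.card_zero] at this
          omega)
        rwa [Multiset.sum_replicate] at this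
      · rw [hsum]
        ext x
        rw [mem_image, mem_Sub]
        constructor
        · rintro ⟨T, hT, rfl⟩
          rw [hrep] at hT
          obtain ⟨k, hk, rfl⟩ := Multiset.le_replicate_iff.mp hT
          exact ⟨k, mem_range.mpr (by omega), by rw [Multiset.sum_replicate]⟩
        · rintro ⟨k, hk, rfl⟩
          rw [mem_range] at hk
          exact ⟨Multiset.replicate k a, hle' k (by omega), by rw [Multiset.sum_replicate]⟩
    · push Not at hall
      obtain ⟨s, hs, hne⟩ := hall
      have hc : s ::ₘ S.erase s = S := Multiset.cons_erase hs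
      have hge := card_Sub_cons_ge (a := s) (S := S.erase s) (by rwa [hc])
      rw [hc] at hge
      have hcard' : Multiset.card (S.erase s) = n := by
        rw [Multiset.card_erase_of_mem hs, hcard]; rfl
      have hZ' : ZF (S.erase s) := hS.mono (Multiset.erase_le s S)
      obtain ⟨a, X, hX1, hX2, hX3, hX4⟩ := ih (S.erase s) hcard' hZ' (by omega)
      set N := X.sum with hN
      have hinj := nsmul_inj_of hX3
      have hcardSub : (Sub (S.erase s)).card = N + 1 := by
        rw [hX4, card_image_of_injOn, card_range]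
        intro i hi j hj hij
        rw [mem_coe, mem_range] at hi hj
        exact hinj i (by omega) j (by omega) hij
      have hNn : n ≤ N := by
        have h1 : Multiset.card X = n := by
          rw [← hcard', hX1, Multiset.card_map]
        have h2 : Multiset.card X • 1 ≤ X.sum := Multiset.card_nsmul_le_sum hX2
        rw [h1] at h2
        simpa using h2
      have hmem : ∀ k, k ≤ N → k • a ∈ Sub (S.erase s) := by
        intro k hk
        rw [hX4]
        exact mem_image.mpr ⟨k, mem_range.mpr (by omega), rfl⟩
      have hnz : ∀ k, k ≤ N → s + k • a ≠ 0 := by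
        intro k hk
        exact ZF.add_ne (by rwa [hc]) (hmem k hk)
      -- the sets intersect
      have hinter : ∃ i ≤ N, ∃ j ≤ N, i • a = s + j • a := by
        by_contra hcon
        push Not at hcon
        have hdis : Disjoint (Sub (S.erase s)) ((Sub (S.erase s)).image (fun x => s + x)) := by
          rw [disjoint_left]
          intro x hx hx'
          rw [hX4] at hx
          obtain ⟨i, hi, rfl⟩ := mem_image.mp hx
          obtain ⟨y, hy, hxy⟩ := mem_image.mp hx'
          rw [hX4] at hy
          obtain ⟨j, hj, rfl⟩ := mem_image.mp hy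
          rw [mem_range] at hi hj
          exact hcon i (by omega) j (by omega) hxy.symm
        have h1 : (Sub S).card = 2 * (N + 1) := by
          rw [← hc, Sub_cons, card_union_of_disjoint hdis,
            card_image_of_injective _ (add_right_injective s), hcardSub]
          ring
        omega
      obtain ⟨i, hi, j, hj, hij⟩ := hinter
      have hlt : j < i := by
        by_contra hcon
        push Not at hcon
        apply hnz (j - i) (by omega)
        have h1 : (j - i) • a = j • a - i • a := sub_nsmul a hcon |>.trans (by abel)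
        rw [h1, hij]
        abel
      set y := i - j with hy
      have hs' : s = y • a := by
        have h1 : y • a = i • a - j • a := sub_nsmul a hlt.le |>.trans (by abel)
        rw [h1, hij]
        abel
      have hy1 : 1 ≤ y := by omega
      have hyN : y ≤ N := by omega
      refine ⟨a, y ::ₘ X, ?_, ?_, ?_, ?_⟩
      · rw [Multiset.map_cons, ← hX1, ← hs', hc]
      · intro x hx
        rcases Multiset.mem_cons.mp hx with h | h
        · rw [h]; exact hy1
        · exact hX2 x h
      · intro k hk1 hk2
        rw [Multiset.sum_cons, ← hN] at hk2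
        by_cases hkN : k ≤ N
        · exact hX3 k hk1 hkN
        · have h1 := hnz (k - y) (by omega)
          rw [hs', ← add_nsmul] at h1
          have h2 : y + (k - y) = k := by omega
          rwa [h2] at h1
      · rw [Multiset.sum_cons, ← hN, ← hc, Sub_cons, hX4]
        ext x
        simp only [mem_union, mem_image, mem_range]
        constructor
        · rintro (⟨k, hk, rfl⟩ | ⟨z, ⟨k, hk, rfl⟩, rfl⟩)
          · exact ⟨k, by omega, rfl⟩
          · refine ⟨y + k, by omega, ?_⟩
            rw [add_nsmul, ← hs']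
        · rintro ⟨k, hk, rfl⟩
          by_cases hkN : k ≤ N
          · left; exact ⟨k, by omega, rfl⟩
          · right
            refine ⟨(k - y) • a, ⟨k - y, by omega, rfl⟩, ?_⟩
            rw [hs', ← add_nsmul]
            congr 1
            omega

/-- **Savchev and Chen.** A zero-sum free multiset of more than `m / 2` residues modulo `m` can be
multiplied by a unit such that the sum of the least positive residues is less than `m`. -/
theorem savchev_chen {m : ℕ} [NeZero m] (S : Multiset (ZMod m)) (hS : ZF S)
    (hl : m < 2 * Multiset.card S) :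
    ∃ u : (ZMod m)ˣ, (S.map (fun a => ((u : ZMod m) * a).val)).sum < m := by
  classical
  have hm := NeZero.pos m
  have hle : (Sub S).card + 1 ≤ 2 * Multiset.card S := by
    have : (Sub S).card ≤ m := by
      calc (Sub S).card ≤ Fintype.card (ZMod m) := card_le_univ _
        _ = m := ZMod.card m
    omega
  obtain ⟨a, X, hX1, hX2, hX3, -⟩ := structure_thm _ S rfl hS hle
  have hcX : Multiset.card X = Multiset.card S := by rw [hX1, Multiset.card_map]
  have hNn : Multiset.card S ≤ X.sum := by
    have h2 : Multiset.card X • 1 ≤ X.sum := Multiset.card_nsmul_le_sum hX2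
    rw [hcX] at h2
    simpa using h2
  have hord : X.sum < addOrderOf a := by
    by_contra hcon
    push Not at hcon
    exact hX3 (addOrderOf a) (addOrderOf_pos a) hcon (addOrderOf_nsmul_eq_zero a)
  have hdvd : addOrderOf a ∣ m := by
    have := addOrderOf_dvd_card (x := a)
    rwa [ZMod.card] at this
  have hm' : addOrderOf a = m := by
    obtain ⟨k, hk⟩ := hdvd
    have hk0 : k ≠ 0 := by rintro rfl; omega
    by_contra hne
    have hk1 : k ≠ 1 := by rintro rfl; omega
    have : 2 ≤ k := by omega
    have h3 : addOrderOf a * 2 ≤ addOrderOf a * k := Nat.mul_le_mul_left _ this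
    rw [← hk] at h3
    omega
  have hu : IsUnit a := by
    have h1 : addOrderOf ((a.val : ℕ) : ZMod m) = m := by rw [ZMod.natCast_zmod_val]; exact hm'
    rw [ZMod.addOrderOf_coe _ (NeZero.ne m)] at h1
    have h2 : Nat.gcd m a.val = 1 := by
      have h3 := Nat.gcd_dvd_left m a.val
      have h4 : m / Nat.gcd m a.val = m → Nat.gcd m a.val = 1 := by
        intro h
        have h5 := Nat.div_mul_cancel h3
        rw [h] at h5
        exact Nat.eq_of_mul_eq_mul_left hm (by rw [h5, mul_one])
      exact h4 h1
    have := (ZMod.isUnit_iff_coprime a.val m).mpr (by rw [Nat.coprime_comm]; exact h2)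
    rwa [ZMod.natCast_zmod_val] at this
  obtain ⟨v, hv⟩ := hu
  refine ⟨v⁻¹, ?_⟩
  have hX : ∀ x ∈ X, (((v⁻¹ : (ZMod m)ˣ) : ZMod m) * (x • a)).val = x := by
    intro x hx
    have h1 : ((v⁻¹ : (ZMod m)ˣ) : ZMod m) * (x • a) = ((x : ℕ) : ZMod m) := by
      rw [nsmul_eq_mul, ← hv]
      have : ((v⁻¹ : (ZMod m)ˣ) : ZMod m) * (v : ZMod m) = 1 := by simp
      linear_combination (x : ZMod m) * this
    have hxle : x ≤ X.sum := Multiset.le_sum_of_mem hx
    rw [h1, ZMod.val_natCast, Nat.mod_eq_of_lt (by omega)]
  rw [hX1, Multiset.map_map]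
  have : (X.map ((fun a => (((v⁻¹ : (ZMod m)ˣ) : ZMod m) * a).val) ∘ fun x => x • a)) = X := by
    conv_rhs => rw [← Multiset.map_id X]
    exact Multiset.map_congr rfl fun x hx => hX x hx
  rw [this]
  omega

end Pool.Agent.N998.ZS
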