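import Pool.Agent.N998.ZS.Short

/-!
Without long blocks `m` is odd, and all blocks of length `(m + 1) / 2` are equal to
`(1, ..., 1, (m + 1) / 2)` up to a unit.
-/

set_option linter.unusedSectionVars false

namespace Pool.Agent.N998.ZS

open Multiset

variable {m : ℕ} [NeZero m]

/-- the common size function -/
lemma exists_d {Z₁ Z₂ : Multiset (ZMod m)} {R : Multiset (Multiset (ZMod m))}
    (hopt : Opt (Z₁ ::ₘ Z₂ ::ₘ R)) (hshort : Short (Z₁ ::ₘ Z₂ ::ₘ R).sum (card R + 2))
    (hl : m + 1 ≤ 2 * card Z₁) (hl2 : m + 1 ≤ 2 * card Z₂) :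
    ∃ d : ZMod m → ℕ, ∀ Z ∈ Z₁ ::ₘ Z₂ ::ₘ R, m + 1 ≤ 2 * card Z →
      ∀ V ≤ Z, V.sum ≠ 0 → d V.sum = card V := by
  classical
  have hf : ∀ g : ZMod m, ∃ U ≤ Z₁, U.sum = g := fun g =>
    mem_Sub.mp (full hopt (Multiset.mem_cons_self _ _) hl g)
  choose F hF1 hF2 using hf
  have hne : ∀ {V : Multiset (ZMod m)}, V.sum ≠ 0 → V ≠ 0 := by
    intro V h h0
    rw [h0] at h
    exact h Multiset.sum_zero
  have h2 : ∀ Z ∈ Z₂ ::ₘ R, m + 1 ≤ 2 * card Z → ∀ V ≤ Z, V.sum ≠ 0 → card (F V.sum) = card V := by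
    intro Z hZ hZl V hV hV0
    obtain ⟨R', hR'⟩ := Multiset.exists_cons_of_mem hZ
    have hc : card R' = card R := by
      have := congrArg card hR'
      rw [Multiset.card_cons, Multiset.card_cons] at this
      omega
    refine size_eq (Z₁ := Z₁) (Z₂ := Z) (R := R') (by rw [← hR']; exact hopt)
      (by rw [← hR', hc]; exact hshort) hl hZl (hF1 _) hV (hF2 _) ?_ (hne hV0)
    apply hne
    rw [hF2]
    exact hV0
  refine ⟨fun g => card (F g), ?_⟩
  intro Z hZ hZl V hV hV0
  rcases Multiset.mem_cons.mp hZ with rfl | hZ'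
  · obtain ⟨V', hV', hs⟩ := mem_Sub.mp
      (full hopt (Multiset.mem_cons_of_mem (Multiset.mem_cons_self _ _)) hl2 V.sum)
    have h3 := h2 Z₂ (Multiset.mem_cons_self _ _) hl2 V' hV' (by rw [hs]; exact hV0)
    have h4 := size_eq hopt hshort hl hl2 hV hV' hs.symm (hne hV0)
      (hne (by rw [hs]; exact hV0))
    rw [hs] at h3
    show card (F V.sum) = card V
    omega
  · exact h2 Z hZ' hZl V hV hV0

lemma nonconst {P : Multiset (Multiset (ZMod m))} (hopt : Opt P) {Z : Multiset (ZMod m)}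
    (hZ : Z ∈ P) (hl : m + 1 ≤ 2 * card Z) (hl' : 2 * card Z ≤ m + 2) (hm : 3 ≤ m) :
    ∃ x y T, Z = x ::ₘ y ::ₘ T ∧ x ≠ y := by
  classical
  obtain ⟨x, hx⟩ := Multiset.exists_mem_of_ne_zero (hopt.1 Z hZ).1
  obtain ⟨Z', hZ'⟩ := Multiset.exists_cons_of_mem hx
  by_cases h : ∀ y ∈ Z', y = x
  · exfalso
    have h1 : Z = replicate (card Z) x := by
      apply Multiset.eq_replicate_card.mpr
      intro b hb
      rw [hZ'] at hb
      rcases Multiset.mem_cons.mp hb with rfl | hb
      · rfl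
      · exact h b hb
    have h2 : ∀ k, 1 ≤ k → k ≤ card Z - 1 → k • x ≠ 0 := by
      intro k hk1 hk2
      have := hopt.minimal hZ (T := replicate k x) (by
        rw [h1]; exact (Multiset.replicate_le_replicate x).mpr (by omega)) (by
        intro h3
        have := congrArg card h3
        rw [Multiset.card_replicate, Multiset.card_zero] at this
        omega) (by
        intro h3
        have := congrArg card h3
        rw [Multiset.card_replicate] at this
        omega)
      rwa [Multiset.sum_replicate] at this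
    have h3 := order_eq h2 (by omega)
    have h4 := (hopt.1 Z hZ).2
    rw [h1, Multiset.sum_replicate] at h4
    have h5 := addOrderOf_dvd_of_nsmul_eq_zero h4
    rw [h3] at h5
    have := Nat.le_of_dvd (by omega) h5
    omega
  · push Not at h
    obtain ⟨y, hy, hyx⟩ := h
    obtain ⟨T, hT⟩ := Multiset.exists_cons_of_mem hy
    exact ⟨x, y, T, by rw [hZ', hT], fun h => hyx h.symm⟩

/-- without long blocks: `m` is odd and there are three blocks of length `(m + 1) / 2` -/
lemma three_blocks {W : Multiset (ZMod m)} {P : Multiset (Multiset (ZMod m))} (hP : Opt P)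
    (hW : P.sum = W) (hcount : card P * m + 3 ≤ 2 * card W) (hm : 3 ≤ m)
    (hshort : Short W (card P)) :
    (∃ n, m = 2 * n + 1) ∧ ∃ Z₁ Z₂ Z₃ R, P = Z₁ ::ₘ Z₂ ::ₘ Z₃ ::ₘ R ∧ 2 * card Z₁ = m + 1 ∧
      2 * card Z₂ = m + 1 ∧ 2 * card Z₃ = m + 1 ∧ ∀ Z ∈ P, 2 * card Z ≤ m + 1 := by
  classical
  set F := P.filter (fun Z => m + 1 ≤ 2 * card Z) with hF
  set F' := P.filter (fun Z => ¬ (m + 1 ≤ 2 * card Z)) with hF'
  have hadd : F + F' = P := Multiset.filter_add_not _ _
  have hF'le : 2 * card F'.sum ≤ card F' * m := by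
    apply card_sum_le
    intro Z hZ
    rw [hF', Multiset.mem_filter] at hZ
    omega
  have hFmem : ∀ Z ∈ F, Z ∈ P ∧ m + 1 ≤ 2 * card Z := by
    intro Z hZ
    rw [hF, Multiset.mem_filter] at hZ
    exact hZ
  have hFle : ∀ k, (∀ Z ∈ F, 2 * card Z ≤ m + k) → 3 ≤ k * card F := by
    intro k hk
    have h1 := card_sum_le hk
    rw [← hW, ← hadd, Multiset.sum_add, Multiset.card_add, Multiset.card_add] at hcount
    have e1 : (card F + card F') * m = card F * m + card F' * m := by ring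
    have e2 : card F * (m + k) = card F * m + k * card F := by ring
    rw [e1] at hcount
    rw [e2] at h1
    omega
  have h2 := hFle 2 (fun Z hZ => hshort P hP hW rfl Z (hFmem Z hZ).1)
  obtain ⟨Z₁, hZ₁⟩ := Multiset.card_pos_iff_exists_mem.mp (by omega : 0 < card F)
  obtain ⟨F₁, hF₁⟩ := Multiset.exists_cons_of_mem hZ₁
  have hF₁c : card F = card F₁ + 1 := by rw [hF₁, Multiset.card_cons]
  obtain ⟨Z₂, hZ₂⟩ := Multiset.card_pos_iff_exists_mem.mp (by omega : 0 < card F₁)
  obtain ⟨F₂, hF₂⟩ := Multiset.exists_cons_of_mem hZ₂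
  have hF₂c : card F₁ = card F₂ + 1 := by rw [hF₂, Multiset.card_cons]
  have hP1 : P = Z₁ ::ₘ Z₂ ::ₘ (F₂ + F') := by
    rw [← hadd, hF₁, hF₂, Multiset.cons_add, Multiset.cons_add]
  have hl₁ := hFmem Z₁ hZ₁
  have hl₂ := hFmem Z₂ (by rw [hF₁]; exact Multiset.mem_cons_of_mem hZ₂)
  have hcP : card P = card (F₂ + F') + 2 := by rw [hP1]; simp
  have key : ∀ Z ∈ P, 2 * card Z ≤ m + 1 := by
    intro Z hZ
    by_cases hZl : m + 1 ≤ 2 * card Z
    · obtain ⟨d, hd⟩ := exists_d (Z₁ := Z₁) (Z₂ := Z₂) (R := F₂ + F') (by rw [← hP1]; exact hP)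
        (by rw [← hP1, ← hcP, hW]; exact hshort) hl₁.2 hl₂.2
      rw [← hP1] at hd
      obtain ⟨x, y, T, hT, hxy⟩ := nonconst hP hZ hZl (hshort P hP hW rfl Z hZ) hm
      have h3 := (counting hP (x := x) (y := y) (T := T) (by rw [← hT]; exact hZ) hxy (by
        rw [hT, Multiset.card_cons, Multiset.card_cons] at hZl
        omega) d (by
        intro U hU hU0
        exact hd Z hZ hZl U (by rw [hT]; exact hU) hU0)).1
      rw [hT, Multiset.card_cons, Multiset.card_cons]
      omega
    · omega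
  have h3 := hFle 1 (fun Z hZ => key Z (hFmem Z hZ).1)
  obtain ⟨Z₃, hZ₃⟩ := Multiset.card_pos_iff_exists_mem.mp (by omega : 0 < card F₂)
  obtain ⟨F₃, hF₃⟩ := Multiset.exists_cons_of_mem hZ₃
  have hl₃ := hFmem Z₃ (by
    rw [hF₁, hF₂]; exact Multiset.mem_cons_of_mem (Multiset.mem_cons_of_mem hZ₃))
  have k1 := key Z₁ hl₁.1
  have k2 := key Z₂ hl₂.1
  have k3 := key Z₃ hl₃.1
  refine ⟨⟨card Z₁ - 1, by omega⟩, Z₁, Z₂, Z₃, F₃ + F', ?_, by omega, by omega, by omega, key⟩
  rw [hP1, hF₃, Multiset.cons_add]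

lemma two_values {α : Type*} {x y : α} (Z : Multiset α) (h : ∀ z ∈ Z, z = x ∨ z = y) :
    ∃ p q, Z = replicate p x + replicate q y := by
  induction Z using Multiset.induction_on with
  | empty => exact ⟨0, 0, by simp⟩
  | cons z Z ih =>
    obtain ⟨p, q, rfl⟩ := ih (fun w hw => h w (Multiset.mem_cons_of_mem hw))
    rcases h z (Multiset.mem_cons_self _ _) with rfl | rfl
    · exact ⟨p + 1, q, by rw [Multiset.replicate_succ, Multiset.cons_add]⟩
    · exact ⟨p, q + 1, by rw [Multiset.replicate_succ, Multiset.add_cons]⟩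

/-- the shape of a block of length `n + 1`, `m = 2 n + 1` -/
lemma shape_aux {n : ℕ} (hn : 1 ≤ n) (hm : m = 2 * n + 1) {P : Multiset (Multiset (ZMod m))}
    (hopt : Opt P) {Z : Multiset (ZMod m)} (hZ : Z ∈ P) (hc : card Z = n + 1)
    (h0 : (0 : ZMod m) ∉ Z) (d : ZMod m → ℕ)
    (hd : ∀ V ≤ Z, V.sum ≠ 0 → d V.sum = card V) :
    ∃ x y, Z = y ::ₘ replicate n x ∧ x ≠ y ∧ ∀ g, g ≠ 0 → d g = 1 → g = x ∨ g = y := by
  classical
  obtain ⟨x, y, T, hT, hxy⟩ := nonconst hopt hZ (by omega) (by omega) (by omega)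
  subst hT
  rw [Multiset.card_cons, Multiset.card_cons] at hc
  obtain ⟨-, hcount⟩ := counting hopt hZ hxy (by omega) d hd
  have hcount' := hcount (by omega)
  have hx0 : x ≠ 0 := by
    rintro rfl
    exact h0 (Multiset.mem_cons_self _ _)
  have hy0 : y ≠ 0 := by
    rintro rfl
    exact h0 (Multiset.mem_cons_of_mem (Multiset.mem_cons_self _ _))
  have hd1 : ∀ z ∈ x ::ₘ y ::ₘ T, d z = 1 := by
    intro z hz
    have h1 := hd {z} (Multiset.singleton_le.mpr hz) (by
      rw [Multiset.sum_singleton]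
      rintro rfl
      exact h0 hz)
    rwa [Multiset.sum_singleton, Multiset.card_singleton] at h1
  have hF1 := hcount' 1 le_rfl (by omega)
  have hvals : ∀ g, g ≠ 0 → d g = 1 → g = x ∨ g = y := by
    have h1 : ({x, y} : Finset (ZMod m)) =
        (Finset.univ.erase (0 : ZMod m)).filter (fun g => d g = 1) := by
      apply Finset.eq_of_subset_of_card_le
      · intro g hg
        rw [Finset.mem_insert, Finset.mem_singleton] at hg
        rw [Finset.mem_filter, Finset.mem_erase]
        rcases hg with rfl | rfl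
        · exact ⟨⟨hx0, Finset.mem_univ _⟩, hd1 _ (Multiset.mem_cons_self _ _)⟩
        · exact ⟨⟨hy0, Finset.mem_univ _⟩,
            hd1 _ (Multiset.mem_cons_of_mem (Multiset.mem_cons_self _ _))⟩
      · rw [hF1, Finset.card_pair hxy]
    intro g hg hg1
    have h2 : g ∈ ({x, y} : Finset (ZMod m)) := by
      rw [h1, Finset.mem_filter, Finset.mem_erase]
      exact ⟨⟨hg, Finset.mem_univ _⟩, hg1⟩
    rwa [Finset.mem_insert, Finset.mem_singleton] at h2
  obtain ⟨p, q, hpq⟩ := two_values (x := x) (y := y) T (by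
    intro z hz
    have hz' : z ∈ x ::ₘ y ::ₘ T := Multiset.mem_cons_of_mem (Multiset.mem_cons_of_mem hz)
    exact hvals z (by rintro rfl; exact h0 hz') (hd1 z hz'))
  subst hpq
  rw [Multiset.card_add, Multiset.card_replicate, Multiset.card_replicate] at hc
  by_cases hp : p = 0
  · subst hp
    refine ⟨y, x, ?_, hxy.symm, fun g h1 h2 => (hvals g h1 h2).symm⟩
    rw [Multiset.replicate_zero, zero_add, ← Multiset.replicate_succ]
    congr 2
    omega
  by_cases hq : q = 0
  · subst hq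
    refine ⟨x, y, ?_, hxy, hvals⟩
    rw [Multiset.replicate_zero, add_zero, Multiset.cons_swap, ← Multiset.replicate_succ]
    congr 2
    omega
  exfalso
  obtain ⟨p, rfl⟩ := Nat.exists_eq_succ_of_ne_zero hp
  obtain ⟨q, rfl⟩ := Nat.exists_eq_succ_of_ne_zero hq
  have hF2 := hcount' 2 (by omega) (by
    rw [Multiset.card_add, Multiset.card_replicate, Multiset.card_replicate]; omega)
  set Z := x ::ₘ y ::ₘ (replicate (p + 1) x + replicate (q + 1) y) with hZdef
  have hcZ : card Z = p + q + 4 := by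
    rw [hZdef, Multiset.card_cons, Multiset.card_cons, Multiset.card_add,
      Multiset.card_replicate, Multiset.card_replicate]
    omega
  have hmem2 : ∀ a b, a ::ₘ {b} ≤ Z → a + b ∈
      (Finset.univ.erase (0 : ZMod m)).filter (fun g => d g = 2) := by
    intro a b hab
    have h1 := hopt.minimal hZ hab Multiset.cons_ne_zero (by
      intro h
      have := congrArg card h
      rw [hcZ, Multiset.card_cons, Multiset.card_singleton] at this
      omega)
    have h2 := hd _ hab h1
    rw [Multiset.sum_cons, Multiset.sum_singleton] at h1 h2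
    rw [Multiset.card_cons, Multiset.card_singleton] at h2
    rw [Finset.mem_filter, Finset.mem_erase]
    exact ⟨⟨h1, Finset.mem_univ _⟩, h2⟩
  have hZ1 : Z = x ::ₘ x ::ₘ y ::ₘ y ::ₘ (replicate p x + replicate q y) := by
    rw [hZdef, Multiset.replicate_succ, Multiset.replicate_succ, Multiset.cons_add,
      Multiset.add_cons, Multiset.cons_swap y x]
  have m1 := hmem2 x x (by
    rw [hZ1]
    exact Multiset.cons_le_cons x (Multiset.singleton_le.mpr (Multiset.mem_cons_self _ _)))
  have m2 := hmem2 x y (by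
    rw [hZ1]
    exact Multiset.cons_le_cons x (Multiset.singleton_le.mpr
      (Multiset.mem_cons_of_mem (Multiset.mem_cons_self _ _))))
  have m3 := hmem2 y y (by
    rw [hZ1]
    refine le_trans ?_ ((Multiset.le_cons_self _ x).trans (Multiset.le_cons_self _ x))
    exact Multiset.cons_le_cons y (Multiset.singleton_le.mpr (Multiset.mem_cons_self _ _)))
  have h2u : IsUnit (2 : ZMod m) := by
    have := (ZMod.isUnit_iff_coprime 2 m).mpr (by
      rw [Nat.coprime_two_left]
      exact ⟨n, hm⟩)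
    simpa using this
  have hsub : ({x + x, x + y, y + y} : Finset (ZMod m)) ⊆
      (Finset.univ.erase (0 : ZMod m)).filter (fun g => d g = 2) := by
    intro g hg
    rw [Finset.mem_insert, Finset.mem_insert, Finset.mem_singleton] at hg
    rcases hg with rfl | rfl | rfl
    · exact m1
    · exact m2
    · exact m3
  have h3 := Finset.card_le_card hsub
  rw [hF2, Finset.card_eq_three.mpr ⟨x + x, x + y, y + y, fun h => hxy (add_left_cancel h), ?_,
    fun h => hxy (add_right_cancel h), rfl⟩] at h3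
  · omega
  · intro h
    apply hxy
    have h4 : (2 : ZMod m) * x = 2 * y := by linear_combination h
    exact h2u.mul_left_cancel h4

/-- all blocks of length `n + 1` have the same shape up to one unit -/
lemma shape {n : ℕ} (hn : 1 ≤ n) (hm : m = 2 * n + 1) {Z₁ Z₂ : Multiset (ZMod m)}
    {R : Multiset (Multiset (ZMod m))} (hopt : Opt (Z₁ ::ₘ Z₂ ::ₘ R))
    (hshort : Short (Z₁ ::ₘ Z₂ ::ₘ R).sum (card R + 2)) (hl : card Z₁ = n + 1)
    (hl2 : card Z₂ = n + 1) (h0 : ∀ Z ∈ Z₁ ::ₘ Z₂ ::ₘ R, (0 : ZMod m) ∉ Z) :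
    ∃ u : (ZMod m)ˣ, ∀ Z ∈ Z₁ ::ₘ Z₂ ::ₘ R, card Z = n + 1 →
      V u Z = (n + 1) ::ₘ replicate n 1 := by
  classical
  obtain ⟨d, hd⟩ := exists_d hopt hshort (by omega) (by omega)
  have hZ₁ : Z₁ ∈ Z₁ ::ₘ Z₂ ::ₘ R := Multiset.mem_cons_self _ _
  obtain ⟨x, y, hxy1, hxy2, hxy3⟩ := shape_aux hn hm hopt hZ₁ hl (h0 _ hZ₁) d
    (hd Z₁ hZ₁ (by omega))
  have hmin : ∀ k, 1 ≤ k → k ≤ n → k • x ≠ 0 := by
    intro k hk1 hk2
    have := hopt.minimal hZ₁ (T := replicate k x) (by
      rw [hxy1]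
      exact ((Multiset.replicate_le_replicate x).mpr hk2).trans (Multiset.le_cons_self _ _)) (by
      intro h3
      have := congrArg card h3
      rw [Multiset.card_replicate, Multiset.card_zero] at this
      omega) (by
      intro h3
      have := congrArg card h3
      rw [Multiset.card_replicate] at this
      omega)
    rwa [Multiset.sum_replicate] at this
  obtain ⟨v, hv⟩ := isUnit_of_order (order_eq hmin (by omega))
  have hux : (((v⁻¹ : (ZMod m)ˣ) : ZMod m) * x).val = 1 := by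
    rw [← hv]
    simp only [Units.inv_mul]
    have : Fact (1 < m) := ⟨by omega⟩
    exact ZMod.val_one m
  set h := (((v⁻¹ : (ZMod m)ˣ) : ZMod m) * y).val with hh
  have hVrep : ∀ k (z : ZMod m), V v⁻¹ (replicate k z) =
      replicate k (((v⁻¹ : (ZMod m)ˣ) : ZMod m) * z).val := by
    intro k z
    unfold V
    rw [Multiset.map_replicate]
  have hhlt : h < m := ZMod.val_lt _
  have hheq : h = n + 1 := by
    have h1 := (V_sum_dvd v⁻¹ Z₁).mpr (hopt.1 _ hZ₁).2
    rw [hxy1, V_cons, hVrep, hux, Multiset.sum_cons, Multiset.sum_replicate, smul_eq_mul,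
      mul_one, ← hh] at h1
    obtain ⟨k, hk⟩ := h1
    have hk0 : k ≠ 0 := by
      rintro rfl
      omega
    have hk2 : k < 2 := by
      by_contra hcon
      push Not at hcon
      have := Nat.mul_le_mul_left m hcon
      omega
    have : k = 1 := by omega
    subst this
    omega
  refine ⟨v⁻¹, ?_⟩
  intro Z hZ hZc
  obtain ⟨p, q, hpq⟩ := two_values (x := x) (y := y) Z (by
    intro z hz
    have hz0 : z ≠ 0 := by
      rintro rfl
      exact h0 Z hZ hz
    have h1 := hd Z hZ (by omega) {z} (Multiset.singleton_le.mpr hz) (by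
      rwa [Multiset.sum_singleton])
    rw [Multiset.sum_singleton, Multiset.card_singleton] at h1
    exact hxy3 z hz0 h1)
  have hcpq : p + q = n + 1 := by
    rw [← hZc, hpq, Multiset.card_add, Multiset.card_replicate, Multiset.card_replicate]
  have hVZ : V v⁻¹ Z = replicate p 1 + replicate q (n + 1) := by
    rw [hpq, V_add, hVrep, hVrep, hux, ← hh, hheq]
  have h1 := (V_sum_dvd v⁻¹ Z).mpr (hopt.1 _ hZ).2
  rw [hVZ, Multiset.sum_add, Multiset.sum_replicate, Multiset.sum_replicate, smul_eq_mul,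
    smul_eq_mul, mul_one] at h1
  have h2 : m ∣ n + 1 + p := by
    have h3 : m ∣ 2 * (p + q * (n + 1)) := Dvd.dvd.mul_left h1 2
    have h4 : 2 * (p + q * (n + 1)) = m * q + (n + 1 + p) := by
      rw [hm]
      have : q = n + 1 - p := by omega
      obtain ⟨r, hr⟩ : ∃ r, n + 1 = p + r := ⟨q, by omega⟩
      have hqr : q = r := by omega
      subst hqr
      rw [hr]
      nlinarith
    rw [h4] at h3
    exact (Nat.dvd_add_right (Dvd.intro q rfl)).mp h3
  obtain ⟨k, hk⟩ := h2
  have hk0 : k ≠ 0 := by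
    rintro rfl
    omega
  have hk2 : k < 2 := by
    by_contra hcon
    push Not at hcon
    have := Nat.mul_le_mul_left m hcon
    omega
  have hk1 : k = 1 := by omega
  subst hk1
  have hp : p = n := by omega
  have hq : q = 1 := by omega
  rw [hVZ, hp, hq, Multiset.replicate_one, add_comm, Multiset.singleton_add]

end Pool.Agent.N998.ZS
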