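import Pool.Agent.N998.ZS.LongMain

/-!
Blocks of length about `m / 2`: every residue is a subsum; counting of the subsums.
-/

set_option linter.unusedSectionVars false

namespace Pool.Agent.N998.ZS

open Multiset

variable {m : ℕ} [NeZero m]

lemma order_eq {a : ZMod m} {N : ℕ} (h : ∀ k, 1 ≤ k → k ≤ N → k • a ≠ 0) (hN : m < 2 * (N + 1)) :
    addOrderOf a = m := by
  have hm := NeZero.pos m
  have hord : N < addOrderOf a := by
    by_contra hcon
    push Not at hcon
    exact h (addOrderOf a) (addOrderOf_pos a) hcon (addOrderOf_nsmul_eq_zero a)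
  have hdvd : addOrderOf a ∣ m := by
    have := addOrderOf_dvd_card (x := a)
    rwa [ZMod.card] at this
  obtain ⟨k, hk⟩ := hdvd
  have hk0 : k ≠ 0 := by rintro rfl; omega
  by_contra hne
  have hk1 : k ≠ 1 := by rintro rfl; omega
  have : 2 ≤ k := by omega
  have h3 : addOrderOf a * 2 ≤ addOrderOf a * k := Nat.mul_le_mul_left _ this
  rw [← hk] at h3
  omega

lemma isUnit_of_order {a : ZMod m} (h : addOrderOf a = m) : IsUnit a := by
  have hm := NeZero.pos m
  have h1 : addOrderOf ((a.val : ℕ) : ZMod m) = m := by rw [ZMod.natCast_zmod_val]; exact h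
  rw [ZMod.addOrderOf_coe _ (NeZero.ne m)] at h1
  have h2 : Nat.gcd m a.val = 1 := by
    have h3 := Nat.gcd_dvd_left m a.val
    have h5 := Nat.div_mul_cancel h3
    rw [h1] at h5
    exact Nat.eq_of_mul_eq_mul_left hm (by rw [h5, mul_one])
  have := (ZMod.isUnit_iff_coprime a.val m).mpr (by rw [Nat.coprime_comm]; exact h2)
  rwa [ZMod.natCast_zmod_val] at this

lemma neg_mem_Sub {G : Type*} [AddCommGroup G] [DecidableEq G] {Z : Multiset G} (hZ : Z.sum = 0)
    {g : G} (hg : g ∈ Sub Z) : -g ∈ Sub Z := by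
  obtain ⟨T, hT, rfl⟩ := mem_Sub.mp hg
  refine mem_Sub.mpr ⟨Z - T, Multiset.sub_le_self Z T, ?_⟩
  have h3 : (Z - T).sum + T.sum = Z.sum := by
    rw [← Multiset.sum_add, Multiset.sub_add_cancel hT]
  rw [hZ] at h3
  exact eq_neg_of_add_eq_zero_left h3

/-- every residue is a subsum of a block with more than `m / 2` elements -/
lemma full {P : Multiset (Multiset (ZMod m))} (hopt : Opt P) {Z : Multiset (ZMod m)} (hZ : Z ∈ P)
    (hl : m + 1 ≤ 2 * card Z) (g : ZMod m) : g ∈ Sub Z := by
  classical
  have hm := NeZero.pos m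
  obtain ⟨x, hx⟩ := Multiset.exists_mem_of_ne_zero (hopt.1 Z hZ).1
  obtain ⟨Z', rfl⟩ := Multiset.exists_cons_of_mem hx
  have hzf := hopt.zf hZ
  have hsum := (hopt.1 _ hZ).2
  rw [Multiset.card_cons] at hl
  by_cases hc : (Sub Z').card + 1 ≤ 2 * card Z'
  · obtain ⟨a, X, hX1, hX2, hX3, hX4⟩ := structure_thm _ Z' rfl hzf hc
    set N := X.sum with hN
    have hcX : card X = card Z' := by rw [hX1, Multiset.card_map]
    have hNn : card Z' ≤ N := by
      have h2 : card X • 1 ≤ X.sum := Multiset.card_nsmul_le_sum hX2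
      rw [hcX] at h2
      simpa using h2
    have hord := order_eq hX3 (by omega)
    have hNm : N < m := by
      by_contra hcon
      push Not at hcon
      refine hX3 m hm hcon ?_
      have := addOrderOf_nsmul_eq_zero a
      rwa [hord] at this
    -- every residue is a multiple of `a`
    obtain ⟨v, hv⟩ := isUnit_of_order hord
    set k := (((v⁻¹ : (ZMod m)ˣ) : ZMod m) * g).val with hk
    have hkm : k < m := ZMod.val_lt _
    have hg : g = k • a := by
      rw [nsmul_eq_mul, hk, ZMod.natCast_zmod_val, ← hv, mul_comm, ← mul_assoc]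
      simp
    have hxa : x + N • a = 0 := by
      have h1 : Z'.sum = N • a := by
        have h2 : ∀ Y : Multiset ℕ, (Y.map fun x => x • a).sum = Y.sum • a := by
          intro Y
          induction Y using Multiset.induction_on with
          | empty => simp
          | cons y Y ih => rw [Multiset.map_cons, Multiset.sum_cons, ih, Multiset.sum_cons, add_nsmul]
        rw [hX1, h2]
      rw [← h1, ← Multiset.sum_cons]
      exact hsum
    rw [Sub_cons, hX4, Finset.mem_union]
    by_cases hkN : k ≤ N
    · left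
      exact Finset.mem_image.mpr ⟨k, Finset.mem_range.mpr (by omega), hg.symm⟩
    · right
      push Not at hkN
      refine Finset.mem_image.mpr ⟨(k + N - m) • a, Finset.mem_image.mpr
        ⟨k + N - m, Finset.mem_range.mpr (by omega), rfl⟩, ?_⟩
      have hma : m • a = 0 := by
        have := addOrderOf_nsmul_eq_zero a
        rwa [hord] at this
      have h1 : (k + N - m) • a + m • a = k • a + N • a := by
        rw [← add_nsmul, ← add_nsmul]
        congr 1
        omega
      rw [hma, add_zero] at h1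
      rw [h1, hg]
      calc x + (k • a + N • a) = k • a + (x + N • a) := by abel
        _ = k • a := by rw [hxa, add_zero]
  · push Not at hc
    by_contra hg
    have hg' : -g ∉ Sub (x ::ₘ Z') := by
      intro h
      have := neg_mem_Sub hsum h
      rw [neg_neg] at this
      exact hg this
    have hle : (Sub Z').card ≤ (Sub (x ::ₘ Z')).card :=
      Finset.card_le_card (Sub_mono (Multiset.le_cons_self _ _))
    by_cases heq : g = -g
    · have h1 : (Sub (x ::ₘ Z')).card ≤ m - 1 := by
        have : Sub (x ::ₘ Z') ⊆ Finset.univ.erase g := by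
          intro y hy
          rw [Finset.mem_erase]
          exact ⟨by rintro rfl; exact hg hy, Finset.mem_univ _⟩
        have h2 := Finset.card_le_card this
        rwa [Finset.card_erase_of_mem (Finset.mem_univ _), Finset.card_univ, ZMod.card] at h2
      have hodd : m = 2 * card Z' + 1 := by omega
      apply hg
      have h2 : (2 : ZMod m) * g = 0 := by
        linear_combination heq
      have h3 : IsUnit (2 : ZMod m) := by
        have := (ZMod.isUnit_iff_coprime 2 m).mpr (by
          rw [Nat.coprime_two_left]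
          exact ⟨card Z', hodd⟩)
        simpa using this
      rw [h3.mul_right_eq_zero] at h2
      rw [h2]
      exact zero_mem_Sub _
    · have : Sub (x ::ₘ Z') ⊆ (Finset.univ.erase g).erase (-g) := by
        intro y hy
        rw [Finset.mem_erase, Finset.mem_erase]
        exact ⟨by rintro rfl; exact hg' hy, by rintro rfl; exact hg hy, Finset.mem_univ _⟩
      have h2 := Finset.card_le_card this
      rw [Finset.card_erase_of_mem, Finset.card_erase_of_mem (Finset.mem_univ _),
        Finset.card_univ, ZMod.card] at h2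
      · have hg0 : g ≠ 0 := by
          rintro rfl
          exact hg (zero_mem_Sub _)
        have : 2 ≤ m := by
          by_contra hcon
          have hm1 : m = 1 := by omega
          subst hm1
          exact hg0 (Subsingleton.elim _ _)
        omega
      · rw [Finset.mem_erase]
        exact ⟨fun h => heq h.symm, Finset.mem_univ _⟩

/-- all optimal decompositions of `W` with `L` parts have short parts -/
def Short (W : Multiset (ZMod m)) (L : ℕ) : Prop :=
  ∀ Q : Multiset (Multiset (ZMod m)), Opt Q → Q.sum = W → card Q = L → ∀ Z ∈ Q, 2 * card Z ≤ m + 2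

lemma size_le {Z₁ Z₂ : Multiset (ZMod m)} {R : Multiset (Multiset (ZMod m))}
    (hopt : Opt (Z₁ ::ₘ Z₂ ::ₘ R)) (hshort : Short (Z₁ ::ₘ Z₂ ::ₘ R).sum (card R + 2))
    (hl : m + 1 ≤ 2 * card Z₁) {U V : Multiset (ZMod m)}
    (hU : U ≤ Z₁) (hV : V ≤ Z₂) (hs : U.sum = V.sum) (hU0 : U ≠ 0) (hV0 : V ≠ 0) :
    card V ≤ card U := by
  obtain ⟨h1, h2⟩ := hopt.swap hU hV hs hU0 hV0
  have h3 := hshort _ h1 h2 (by simp) (Z₁ - U + V) (Multiset.mem_cons_self _ _)
  rw [Multiset.card_add, Multiset.card_sub hU] at h3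
  have := Multiset.card_le_card hU
  omega

lemma size_eq {Z₁ Z₂ : Multiset (ZMod m)} {R : Multiset (Multiset (ZMod m))}
    (hopt : Opt (Z₁ ::ₘ Z₂ ::ₘ R)) (hshort : Short (Z₁ ::ₘ Z₂ ::ₘ R).sum (card R + 2))
    (hl : m + 1 ≤ 2 * card Z₁) (hl2 : m + 1 ≤ 2 * card Z₂) {U V : Multiset (ZMod m)}
    (hU : U ≤ Z₁) (hV : V ≤ Z₂) (hs : U.sum = V.sum) (hU0 : U ≠ 0) (hV0 : V ≠ 0) :
    card U = card V := by
  apply le_antisymm
  · have e : Z₂ ::ₘ Z₁ ::ₘ R = Z₁ ::ₘ Z₂ ::ₘ R := Multiset.cons_swap _ _ _
    exact size_le (Z₁ := Z₂) (Z₂ := Z₁) (R := R) (by rw [e]; exact hopt) (by rw [e]; exact hshort)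
      hl2 hV hU hs.symm hV0 hU0
  · exact size_le hopt hshort hl hU hV hs hU0 hV0

lemma exists_le_card {α : Type*} (T : Multiset α) (k : ℕ) (hk : k ≤ card T) :
    ∃ T' ≤ T, card T' = k := by
  induction T using Multiset.induction_on generalizing k with
  | empty =>
    refine ⟨0, le_rfl, ?_⟩
    simp at hk
    simp [hk]
  | cons a T ih =>
    rw [Multiset.card_cons] at hk
    by_cases h : k ≤ card T
    · obtain ⟨T', h1, h2⟩ := ih k h
      exact ⟨T', h1.trans (Multiset.le_cons_self _ _), h2⟩
    · exact ⟨a ::ₘ T, le_rfl, by rw [Multiset.card_cons]; omega⟩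

/-- The counting argument. `d g` is the common cardinality of the submultisets with sum `g`. -/
lemma counting {P : Multiset (Multiset (ZMod m))} (hopt : Opt P) {x y : ZMod m}
    {T : Multiset (ZMod m)} (hZ : x ::ₘ y ::ₘ T ∈ P) (hxy : x ≠ y)
    (hl : m + 1 ≤ 2 * (card T + 2)) (d : ZMod m → ℕ)
    (hd : ∀ U ≤ x ::ₘ y ::ₘ T, U.sum ≠ 0 → d U.sum = card U) :
    2 * (card T + 1) ≤ m - 1 ∧ (2 * (card T + 1) = m - 1 → ∀ k, 1 ≤ k → k ≤ card T + 1 →
      ((Finset.univ.erase (0 : ZMod m)).filter (fun g => d g = k)).card = 2) := by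
  classical
  have hge : ∀ k ∈ Finset.Icc 1 (card T + 1),
      2 ≤ ((Finset.univ.erase (0 : ZMod m)).filter (fun g => d g = k)).card := by
    intro k hk
    rw [Finset.mem_Icc] at hk
    obtain ⟨T', hT', hT'c⟩ := exists_le_card T (k - 1) (by omega)
    have h1 : x ::ₘ T' ≤ x ::ₘ y ::ₘ T :=
      Multiset.cons_le_cons x (hT'.trans (Multiset.le_cons_self _ _))
    have h2 : y ::ₘ T' ≤ x ::ₘ y ::ₘ T :=
      (Multiset.cons_le_cons y hT').trans (Multiset.le_cons_self _ _)
    have h3 : (x ::ₘ T').sum ≠ 0 := hopt.minimal hZ h1 (Multiset.cons_ne_zero) (by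
      intro h
      have := congrArg card h
      simp only [Multiset.card_cons] at this
      omega)
    have h4 : (y ::ₘ T').sum ≠ 0 := hopt.minimal hZ h2 (Multiset.cons_ne_zero) (by
      intro h
      have := congrArg card h
      simp only [Multiset.card_cons] at this
      omega)
    have h5 : ({(x ::ₘ T').sum, (y ::ₘ T').sum} : Finset (ZMod m)) ⊆
        (Finset.univ.erase (0 : ZMod m)).filter (fun g => d g = k) := by
      intro g hg
      rw [Finset.mem_insert, Finset.mem_singleton] at hg
      rw [Finset.mem_filter, Finset.mem_erase]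
      rcases hg with rfl | rfl
      · refine ⟨⟨h3, Finset.mem_univ _⟩, ?_⟩
        rw [hd _ h1 h3, Multiset.card_cons]
        omega
      · refine ⟨⟨h4, Finset.mem_univ _⟩, ?_⟩
        rw [hd _ h2 h4, Multiset.card_cons]
        omega
    have h6 : ({(x ::ₘ T').sum, (y ::ₘ T').sum} : Finset (ZMod m)).card = 2 := by
      apply Finset.card_pair
      rw [Multiset.sum_cons, Multiset.sum_cons]
      exact fun h => hxy (add_right_cancel h)
    rw [← h6]
    exact Finset.card_le_card h5
  have hmaps : ∀ g ∈ Finset.univ.erase (0 : ZMod m), d g ∈ Finset.Icc 1 (card T + 1) := by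
    intro g hg
    rw [Finset.mem_erase] at hg
    obtain ⟨U, hU, rfl⟩ := mem_Sub.mp (full hopt hZ (by simpa using hl) g)
    rw [hd U hU hg.1, Finset.mem_Icc]
    constructor
    · rw [Nat.one_le_iff_ne_zero]
      intro h
      rw [Multiset.card_eq_zero] at h
      rw [h] at hg
      exact hg.1 Multiset.sum_zero
    · by_contra hcon
      push Not at hcon
      have : U = x ::ₘ y ::ₘ T := Multiset.eq_of_le_of_card_le hU (by
        simp only [Multiset.card_cons]; omega)
      rw [this] at hg
      exact hg.1 (hopt.1 _ hZ).2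
  have hsum := Finset.card_eq_sum_card_fiberwise hmaps
  rw [Finset.card_erase_of_mem (Finset.mem_univ _), Finset.card_univ, ZMod.card] at hsum
  have hle : ∑ _k ∈ Finset.Icc 1 (card T + 1), 2 ≤ m - 1 := by
    rw [hsum]
    exact Finset.sum_le_sum hge
  have hc : ∑ _k ∈ Finset.Icc 1 (card T + 1), 2 = 2 * (card T + 1) := by
    rw [Finset.sum_const, Nat.card_Icc, smul_eq_mul]
    ring_nf
    omega
  refine ⟨by omega, ?_⟩
  intro heq k hk1 hk2
  have h1 : ∑ _k ∈ Finset.Icc 1 (card T + 1), 2 = ∑ k ∈ Finset.Icc 1 (card T + 1),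
      ((Finset.univ.erase (0 : ZMod m)).filter (fun g => d g = k)).card := by
    rw [hc, heq, hsum]
  have h2 := (Finset.sum_eq_sum_iff_of_le hge).mp h1 k (Finset.mem_Icc.mpr ⟨hk1, hk2⟩)
  exact h2.symm

end Pool.Agent.N998.ZS
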